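import Mathlib

set_option autoImplicit false
open Set Topology Filter

/-!
# Continuous flows with Hausdorff orbit space

The material of this file is adapted from the files `H289R3.FQ.*`, which treat flows whose quotient
map is a submersion; here no local product structure is assumed.
-/

namespace Pool.Agent.Q143.FQ

/-- A continuous real flow `φ` on `Y` with open continuous quotient map `f`, whose fibres are the
orbits. -/
structure GFlow {Y N : Type*} [TopologicalSpace Y] [TopologicalSpace N] (φ : ℝ → Y → Y)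
    (f : Y → N) : Prop where
  cont : Continuous (fun p : ℝ × Y => φ p.1 p.2)
  zero : ∀ y, φ 0 y = y
  add : ∀ s t y, φ (s + t) y = φ s (φ t y)
  fcont : Continuous f
  fopen : IsOpenMap f
  fibre : ∀ x y, f x = f y ↔ ∃ t, φ t x = y

variable {Y N : Type*} [TopologicalSpace Y] [TopologicalSpace N] {φ : ℝ → Y → Y} {f : Y → N}

theorem GFlow.orbit_cont (h : GFlow φ f) (y : Y) : Continuous (fun t => φ t y) :=
  h.cont.comp (continuous_id.prodMk continuous_const)

theorem GFlow.time_cont (h : GFlow φ f) (t : ℝ) : Continuous (φ t) :=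
  h.cont.comp (continuous_const.prodMk continuous_id)

theorem GFlow.f_flow (h : GFlow φ f) (t : ℝ) (y : Y) : f (φ t y) = f y :=
  ((h.fibre y (φ t y)).2 ⟨t, rfl⟩).symm

theorem GFlow.fibre_eq (h : GFlow φ f) (y : Y) : f ⁻¹' {f y} = range (fun t => φ t y) := by
  ext z
  simp only [mem_preimage, mem_singleton_iff, mem_range]
  rw [eq_comm, h.fibre y z]

theorem GFlow.conn (h : GFlow φ f) (n : N) : IsPreconnected (f ⁻¹' {n}) := by
  by_cases hn : ∃ y, f y = n
  · obtain ⟨y, rfl⟩ := hn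
    rw [h.fibre_eq]
    exact isPreconnected_range (h.orbit_cont y)
  · have : f ⁻¹' {n} = ∅ := by
      ext z
      simp only [mem_preimage, mem_singleton_iff, mem_empty_iff_false, iff_false]
      exact fun hz => hn ⟨z, hz⟩
    rw [this]
    exact isPreconnected_empty

/-- compact orbits are stable -/
theorem GFlow.stable [T2Space Y] [LocallyCompactSpace Y] [T2Space N] (h : GFlow φ f) {y0 : Y}
    (hc : IsCompact (f ⁻¹' {f y0})) {O : Set Y} (hO : IsOpen O) (hsub : f ⁻¹' {f y0} ⊆ O) :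
    ∃ L : Set Y, IsCompact L ∧ L ⊆ O ∧ ∀ᶠ n in 𝓝 (f y0), f ⁻¹' {n} ⊆ L := by
  obtain ⟨L, hL, h1, h2⟩ := exists_compact_between hc hO hsub
  refine ⟨L, hL, h2, ?_⟩
  have hfr : IsCompact (frontier (interior L)) := by
    apply hL.of_isClosed_subset isClosed_frontier
    exact (frontier_subset_closure.trans (closure_mono interior_subset)).trans
      hL.isClosed.closure_subset
  have hcl : IsClosed (f '' frontier (interior L)) := (hfr.image h.fcont).isClosed
  have hnot : f y0 ∉ f '' frontier (interior L) := by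
    rintro ⟨z, hz, hzf⟩
    have : z ∈ interior L := h1 hzf
    have hfe := (isOpen_interior (s := L)).frontier_eq
    rw [hfe] at hz
    exact hz.2 this
  have e1 : ∀ᶠ n in 𝓝 (f y0), n ∉ f '' frontier (interior L) := hcl.isOpen_compl.mem_nhds hnot
  have e2 : ∀ᶠ n in 𝓝 (f y0), n ∈ f '' interior L :=
    (h.fopen _ isOpen_interior).mem_nhds ⟨y0, h1 rfl, rfl⟩
  filter_upwards [e1, e2] with n hn1 hn2
  obtain ⟨z, hz, rfl⟩ := hn2
  by_contra hcon
  obtain ⟨w, hw, hwL⟩ := not_subset.1 hcon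
  have hfe := (isOpen_interior (s := L)).frontier_eq
  have hcov : f ⁻¹' {f z} ⊆ interior L ∪ (closure (interior L))ᶜ := by
    intro v hv
    by_contra hv'
    simp only [mem_union, mem_compl_iff, not_or, not_not] at hv'
    exact hn1 ⟨v, by rw [hfe]; exact ⟨hv'.2, hv'.1⟩, hv⟩
  obtain ⟨v, -, hv1, hv2⟩ := h.conn (f z) _ _ isOpen_interior isClosed_closure.isOpen_compl hcov
    ⟨z, rfl, hz⟩ ⟨w, hw, fun hw' => hwL (by
      have : closure (interior L) ⊆ L := (closure_mono interior_subset).trans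
        hL.isClosed.closure_subset
      exact this hw')⟩
  exact hv2 (subset_closure hv1)

theorem GFlow.compact_nhds [T2Space Y] [LocallyCompactSpace Y] [T2Space N] (h : GFlow φ f) {y0 : Y}
    (hc : IsCompact (f ⁻¹' {f y0})) : ∀ᶠ n in 𝓝 (f y0), IsCompact (f ⁻¹' {n}) := by
  obtain ⟨L, hL, -, h2⟩ := h.stable hc isOpen_univ (subset_univ _)
  filter_upwards [h2] with n hn
  exact hL.of_isClosed_subset (isClosed_singleton.preimage h.fcont) hn


theorem GFlow.neg_flow (h : GFlow φ f) (t : ℝ) (y : Y) : φ (-t) (φ t y) = y := by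
  rw [← h.add, neg_add_cancel, h.zero]

theorem GFlow.flow_neg (h : GFlow φ f) (t : ℝ) (y : Y) : φ t (φ (-t) y) = y := by
  rw [← h.add, add_neg_cancel, h.zero]

/-- A closed orbit which is recurrent at one of its points is periodic. -/
theorem GFlow.recur [T2Space Y] [LocallyCompactSpace Y] [T1Space N] (h : GFlow φ f) {y z : Y}
    (hz : f z = f y) (hrec : ∀ W ∈ 𝓝 z, ∀ T : ℝ, ∃ t, T < |t| ∧ φ t y ∈ W) :
    ∃ T, T ≠ 0 ∧ φ T y = y := by
  have hcl : IsClosed (f ⁻¹' {f y}) := isClosed_singleton.preimage h.fcont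
  have : LocallyCompactSpace (f ⁻¹' {f y}) := hcl.isClosedEmbedding_subtypeVal.locallyCompactSpace
  have : Nonempty (f ⁻¹' {f y}) := ⟨⟨y, rfl⟩⟩
  let F : ℕ → Set (f ⁻¹' {f y}) := fun k => Subtype.val ⁻¹' ((fun t => φ t y) '' Icc (-(k : ℝ)) k)
  have hF : ∀ k, IsClosed (F k) := fun k =>
    (isCompact_Icc.image (h.orbit_cont y)).isClosed.preimage continuous_subtype_val
  have hU : ⋃ k, F k = univ := by
    rw [eq_univ_iff_forall]
    rintro ⟨x, hx⟩
    obtain ⟨t, ht⟩ := (h.fibre y x).1 (Eq.symm hx)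
    obtain ⟨k, hk⟩ := exists_nat_ge |t|
    rw [abs_le] at hk
    exact mem_iUnion.2 ⟨k, ⟨t, hk, ht⟩⟩
  obtain ⟨k, x0, hx0⟩ := nonempty_interior_of_iUnion_of_closed hF hU
  obtain ⟨W, hW, hWe⟩ := isOpen_induced_iff.1 (isOpen_interior (s := F k))
  have hx0W : x0.1 ∈ W := by
    have : x0 ∈ Subtype.val ⁻¹' W := by rw [hWe]; exact hx0
    exact this
  obtain ⟨a, ha⟩ := (h.fibre y x0.1).1 (Eq.symm x0.2)
  obtain ⟨c, hc⟩ := (h.fibre y z).1 hz.symm
  have hWz : φ (a - c) ⁻¹' W ∈ 𝓝 z := by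
    apply (h.time_cont (a - c)).continuousAt
    rw [← hc, ← h.add, sub_add_cancel, ha]
    exact hW.mem_nhds hx0W
  obtain ⟨t, ht, htW⟩ := hrec _ hWz (k + |a - c|)
  have hmem : (⟨φ (a - c) (φ t y), by
      change f _ = f y
      rw [h.f_flow, h.f_flow]⟩ : f ⁻¹' {f y}) ∈ F k := by
    apply interior_subset (s := F k)
    rw [← hWe]
    exact htW
  obtain ⟨s, hs, hs'⟩ := hmem
  simp only at hs'
  refine ⟨-s + ((a - c) + t), ?_, ?_⟩
  · intro h0
    have h1 : s = (a - c) + t := by linarith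
    have h2 : |s| ≤ k := abs_le.2 hs
    have h3 : |t| ≤ |s| + |a - c| := by
      have : t = s - (a - c) := by linarith
      rw [this]
      exact abs_sub _ _
    linarith
  · rw [h.add, h.add, ← hs', h.neg_flow]

theorem GFlow.periodic [T2Space Y] [LocallyCompactSpace Y] [T1Space N] (h : GFlow φ f) {y : Y}
    (hc : IsCompact (f ⁻¹' {f y})) : ∃ T > 0, φ T y = y := by
  have hmem : ∀ k : ℕ, φ k y ∈ f ⁻¹' {f y} := fun k => h.f_flow _ _
  obtain ⟨z, hz, hcl⟩ := hc (f := map (fun k : ℕ => φ k y) atTop)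
    (by rw [Filter.le_principal_iff]; exact Filter.mem_map.2 (Filter.Eventually.of_forall hmem))
  obtain ⟨T, hT0, hT⟩ := h.recur (y := y) (z := z) hz (by
    intro W hW T
    obtain ⟨m, hm⟩ := exists_nat_gt T
    have hfreq : ∃ᶠ k in atTop, φ (k : ℕ) y ∈ W := MapClusterPt.frequently hcl hW
    obtain ⟨k, hk, hkW⟩ := (Filter.frequently_atTop.1 hfreq) m
    have hk' : (m : ℝ) ≤ k := by exact_mod_cast hk
    exact ⟨k, by rw [abs_of_nonneg (by positivity)]; linarith, hkW⟩)
  rcases lt_or_gt_of_ne hT0 with h0 | h0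
  · refine ⟨-T, by linarith, ?_⟩
    conv_lhs => rw [← hT]
    rw [h.neg_flow]
  · exact ⟨T, h0, hT⟩

/-- Free closed orbits leave every compact set. -/
theorem GFlow.escape [T2Space Y] [LocallyCompactSpace Y] [T1Space N] (h : GFlow φ f) {y : Y}
    (hfree : ∀ t, φ t y = y → t = 0) {S : Set Y} (hS : IsCompact S) :
    ∃ τ > 0, ∀ t, τ ≤ |t| → φ t y ∉ S := by
  by_contra hcon
  push Not at hcon
  have hex : ∀ k : ℕ, ∃ t : ℝ, (k : ℝ) + 1 ≤ |t| ∧ φ t y ∈ S := fun k => by
    obtain ⟨t, h1, h2⟩ := hcon (k + 1) (by positivity)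
    exact ⟨t, h1, h2⟩
  choose t ht htS using hex
  obtain ⟨z, hz, hcl⟩ := hS (f := map (fun k : ℕ => φ (t k) y) atTop)
    (by rw [Filter.le_principal_iff]; exact Filter.mem_map.2 (Filter.Eventually.of_forall htS))
  have hclo : IsClosed (f ⁻¹' {f y}) := isClosed_singleton.preimage h.fcont
  have hzf : z ∈ f ⁻¹' {f y} := by
    rw [← hclo.closure_eq, mem_closure_iff_nhds]
    intro W hW
    have hfreq : ∃ᶠ k in atTop, φ (t k) y ∈ W := MapClusterPt.frequently hcl hW
    obtain ⟨k, -, hk⟩ := (Filter.frequently_atTop.1 hfreq) 0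
    exact ⟨φ (t k) y, hk, h.f_flow _ _⟩
  obtain ⟨T, hT0, hT⟩ := h.recur (y := y) (z := z) hzf (by
    intro W hW T
    obtain ⟨m, hm⟩ := exists_nat_gt T
    have hfreq : ∃ᶠ k in atTop, φ (t k) y ∈ W := MapClusterPt.frequently hcl hW
    obtain ⟨k, hk, hkW⟩ := (Filter.frequently_atTop.1 hfreq) m
    have hk' : (m : ℝ) ≤ k := by exact_mod_cast hk
    exact ⟨t k, by linarith [ht k], hkW⟩)
  exact hT0 (hfree T hT)

end Pool.Agent.Q143.FQ
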