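import Mathlib

set_option autoImplicit false
open Set Topology Filter Complex
open scoped ComplexConjugate

/-!
# Lifting through the Hopf map
-/

namespace Pool.Agent.Q143.FQ

/-- the Hopf map `ℂ² → ℝ × ℂ` -/
noncomputable def hopf (v : ℂ × ℂ) : ℝ × ℂ := (normSq v.1 - normSq v.2, 2 * (v.1 * conj v.2))

/-- the Hermitian product -/
noncomputable def herm (u v : ℂ × ℂ) : ℂ := conj u.1 * v.1 + conj u.2 * v.2

/-- squared Euclidean norm -/
noncomputable def nq (q : ℝ × ℂ) : ℝ := q.1 ^ 2 + normSq q.2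

lemma hopf_cont : Continuous hopf := by
  unfold hopf
  have h : Continuous (normSq : ℂ → ℝ) := continuous_normSq
  fun_prop

lemma herm_cont : Continuous fun p : (ℂ × ℂ) × (ℂ × ℂ) => herm p.1 p.2 := by
  unfold herm
  fun_prop

lemma nq_cont : Continuous nq := by
  unfold nq
  have h : Continuous (normSq : ℂ → ℝ) := continuous_normSq
  fun_prop

lemma nq_nonneg (q : ℝ × ℂ) : 0 ≤ nq q := add_nonneg (sq_nonneg _) (normSq_nonneg _)

lemma nq_pos {q : ℝ × ℂ} (hq : q ≠ 0) : 0 < nq q := by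
  rcases (nq_nonneg q).eq_or_lt with h | h
  · exfalso
    apply hq
    unfold nq at h
    have h1 : q.1 ^ 2 = 0 := by nlinarith [sq_nonneg q.1, normSq_nonneg q.2]
    have h2 : normSq q.2 = 0 := by nlinarith [sq_nonneg q.1, normSq_nonneg q.2]
    exact Prod.ext (pow_eq_zero_iff two_ne_zero |>.1 h1) (normSq_eq_zero.1 h2)
  · exact h

/-- the pairing of `ℝ × ℂ` -/
noncomputable def pr (p q : ℝ × ℂ) : ℝ := p.1 * q.1 + (p.2.re * q.2.re + p.2.im * q.2.im)

lemma herm_sq (u v : ℂ × ℂ) : 2 * normSq (herm u v) =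
    (normSq u.1 + normSq u.2) * (normSq v.1 + normSq v.2) + pr (hopf u) (hopf v) := by
  simp only [herm, hopf, pr, normSq_apply, add_re, add_im, mul_re, mul_im, conj_re, conj_im,
    re_ofNat, im_ofNat]
  ring

lemma herm_ne {u v : ℂ × ℂ} (h : hopf u = hopf v) (h0 : hopf u ≠ 0) : herm u v ≠ 0 := by
  intro hc
  have h1 := herm_sq u v
  rw [hc, map_zero, mul_zero, ← h] at h1
  have h2 : pr (hopf u) (hopf u) = nq (hopf u) := by
    simp only [pr, nq, normSq_apply]
    ring
  have h3 := nq_pos h0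
  have h4 : 0 ≤ (normSq u.1 + normSq u.2) * (normSq v.1 + normSq v.2) :=
    mul_nonneg (add_nonneg (normSq_nonneg _) (normSq_nonneg _))
      (add_nonneg (normSq_nonneg _) (normSq_nonneg _))
  linarith

lemma hopf_smul {c : ℂ} (hc : normSq c = 1) (v : ℂ × ℂ) : hopf (c * v.1, c * v.2) = hopf v := by
  have h2 : c * conj c = 1 := by rw [mul_conj, hc]; simp
  simp only [hopf, map_mul, hc, one_mul]
  congr 1
  linear_combination (2 * (v.1 * conj v.2)) * h2

/-- projection to the line over `q`, up to a factor -/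
noncomputable def prj (q : ℝ × ℂ) (v : ℂ × ℂ) : ℂ × ℂ :=
  ((((Real.sqrt (nq q) + q.1) / 2 : ℝ) : ℂ) * v.1 + q.2 / 2 * v.2,
    conj q.2 / 2 * v.1 + (((Real.sqrt (nq q) - q.1) / 2 : ℝ) : ℂ) * v.2)

lemma prj_cont : Continuous fun p : (ℝ × ℂ) × (ℂ × ℂ) => prj p.1 p.2 := by
  unfold prj
  have h := nq_cont
  fun_prop

/-- squared norm on `ℂ²` -/
noncomputable def nv (v : ℂ × ℂ) : ℝ := normSq v.1 + normSq v.2

lemma nv_cont : Continuous nv := by
  unfold nv
  have h : Continuous (normSq : ℂ → ℝ) := continuous_normSq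
  fun_prop

lemma nv_pos {v : ℂ × ℂ} (hv : v ≠ 0) : 0 < nv v := by
  rcases (add_nonneg (normSq_nonneg v.1) (normSq_nonneg v.2)).eq_or_lt with h | h
  · exfalso
    apply hv
    have h1 : normSq v.1 = 0 := by nlinarith [normSq_nonneg v.1, normSq_nonneg v.2]
    have h2 : normSq v.2 = 0 := by nlinarith [normSq_nonneg v.1, normSq_nonneg v.2]
    exact Prod.ext (normSq_eq_zero.1 h1) (normSq_eq_zero.1 h2)
  · exact h

lemma nv_hopf (v : ℂ × ℂ) : nq (hopf v) = nv v ^ 2 := by
  simp only [nq, hopf, nv, normSq_apply, mul_re, mul_im, conj_re, conj_im, re_ofNat, im_ofNat]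
  ring

/-- the lift of `q` close to `v` -/
noncomputable def lft (q : ℝ × ℂ) (v : ℂ × ℂ) : ℂ × ℂ :=
  ((Real.sqrt (Real.sqrt (nq q) / nv (prj q v)) : ℝ) : ℂ) • prj q v

lemma hopf_prj (q : ℝ × ℂ) (v : ℂ × ℂ) :
    (Real.sqrt (nq q)) • hopf (prj q v) = nv (prj q v) • q := by
  have hρ : Real.sqrt (nq q) ^ 2 = q.1 ^ 2 + (q.2.re ^ 2 + q.2.im ^ 2) := by
    rw [Real.sq_sqrt (nq_nonneg q), nq, normSq_apply]
    ring
  set ρ := Real.sqrt (nq q) with hρd
  have hprj : prj q v = ((((ρ + q.1) / 2 : ℝ) : ℂ) * v.1 + q.2 / 2 * v.2,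
    conj q.2 / 2 * v.1 + (((ρ - q.1) / 2 : ℝ) : ℂ) * v.2) := rfl
  set r := q.1 with hr
  set c := q.2 with hc
  -- the two relations
  have e1 : ((ρ - r : ℝ) : ℂ) * (prj q v).1 = c * (prj q v).2 := by
    rw [hprj]
    apply Complex.ext
    · simp only [mul_re, add_re, ofReal_re, ofReal_im, mul_im, add_im, div_ofNat_re, div_ofNat_im,
        conj_re, conj_im]
      linear_combination (v.1.re / 2) * hρ
    · simp only [mul_re, add_re, ofReal_re, ofReal_im, mul_im, add_im, div_ofNat_re, div_ofNat_im,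
        conj_re, conj_im]
      linear_combination (v.1.im / 2) * hρ
  have e2 : ((ρ + r : ℝ) : ℂ) * (prj q v).2 = conj c * (prj q v).1 := by
    rw [hprj]
    apply Complex.ext
    · simp only [mul_re, add_re, ofReal_re, ofReal_im, mul_im, add_im, div_ofNat_re, div_ofNat_im,
        conj_re, conj_im]
      linear_combination (v.2.re / 2) * hρ
    · simp only [mul_re, add_re, ofReal_re, ofReal_im, mul_im, add_im, div_ofNat_re, div_ofNat_im,
        conj_re, conj_im]
      linear_combination (v.2.im / 2) * hρ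
  set n1 := (prj q v).1 with hn1
  set n2 := (prj q v).2 with hn2
  have e1r := congrArg re e1
  have e1i := congrArg im e1
  have e2r := congrArg re e2
  have e2i := congrArg im e2
  simp only [mul_re, mul_im, ofReal_re, ofReal_im, conj_re, conj_im] at e1r e1i e2r e2i
  apply Prod.ext
  · simp only [Prod.smul_fst, smul_eq_mul, hopf, nv, normSq_apply, ← hn1, ← hn2, ← hr]
    linear_combination n1.re * e1r + n1.im * e1i - n2.re * e2r - n2.im * e2i
  · simp only [Prod.smul_snd, hopf, nv, normSq_apply, ← hn1, ← hn2, ← hc]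
    apply Complex.ext
    · simp only [real_smul, mul_re, mul_im, ofReal_re, ofReal_im, conj_re, conj_im, re_ofNat,
        im_ofNat]
      linear_combination n1.re * e2r + n1.im * e2i + n2.re * e1r + n2.im * e1i
    · simp only [real_smul, mul_re, mul_im, ofReal_re, ofReal_im, conj_re, conj_im, re_ofNat,
        im_ofNat]
      linear_combination n2.re * e1i - n2.im * e1r + n1.im * e2r - n1.re * e2i

end Pool.Agent.Q143.FQ
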