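import Pool.Agent.Q143.FQ.GHopf

set_option autoImplicit false
open Set Topology Filter Complex
open scoped ComplexConjugate

/-!
# Lifting through the Hopf map, continued
-/

namespace Pool.Agent.Q143.FQ

lemma hopf_scale (t : ℝ) (v : ℂ × ℂ) : hopf ((t : ℂ) • v) = (t ^ 2) • hopf v := by
  apply Prod.ext
  · simp only [hopf, Prod.smul_fst, Prod.smul_snd, smul_eq_mul, normSq_apply, mul_re, mul_im,
      ofReal_re, ofReal_im]
    ring
  · apply Complex.ext
    · simp only [hopf, Prod.smul_fst, Prod.smul_snd, smul_eq_mul, mul_re, mul_im, conj_re, conj_im,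
        ofReal_re, ofReal_im, re_ofNat, im_ofNat, real_smul]
      ring
    · simp only [hopf, Prod.smul_fst, Prod.smul_snd, smul_eq_mul, mul_re, mul_im, conj_re, conj_im,
        ofReal_re, ofReal_im, re_ofNat, im_ofNat, real_smul]
      ring

lemma prj_zero (v : ℂ × ℂ) : prj 0 v = 0 := by
  have : nq 0 = 0 := by simp [nq]
  simp [prj, this]

lemma hopf_lft {q : ℝ × ℂ} {v : ℂ × ℂ} (h : prj q v ≠ 0) : hopf (lft q v) = q := by
  have hq : q ≠ 0 := by
    rintro rfl
    exact h (prj_zero v)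
  have h1 : 0 < Real.sqrt (nq q) := Real.sqrt_pos.2 (nq_pos hq)
  have h2 := nv_pos h
  rw [lft, hopf_scale, Real.sq_sqrt (div_nonneg h1.le h2.le), div_eq_inv_mul, ← smul_smul,
    hopf_prj, smul_smul, inv_mul_cancel₀ h2.ne', one_smul]

lemma herm_prj (q : ℝ × ℂ) (v : ℂ × ℂ) :
    2 * (herm v (prj q v)).re = Real.sqrt (nq q) * nv v + pr (hopf v) q := by
  simp only [herm, prj, hopf, pr, nv, normSq_apply, add_re, mul_re, mul_im, conj_re, conj_im,
    add_im, ofReal_re, ofReal_im, div_ofNat_re, div_ofNat_im, re_ofNat, im_ofNat]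
  ring

lemma pr_eq (p q : ℝ × ℂ) : 2 * pr p q = nq p + nq q - nq (q - p) := by
  simp only [pr, nq, normSq_apply, Prod.fst_sub, Prod.snd_sub, sub_re, sub_im]
  ring

lemma prj_ne {q : ℝ × ℂ} {v : ℂ × ℂ} (h : nq (q - hopf v) < nq q) : prj q v ≠ 0 := by
  intro hc
  have h1 := herm_prj q v
  rw [hc] at h1
  have h0 : herm v 0 = 0 := by simp [herm]
  rw [h0, zero_re, mul_zero] at h1
  have h2 := pr_eq (hopf v) q
  have h3 := nq_nonneg (hopf v)
  have h4 : 0 ≤ Real.sqrt (nq q) * nv v := mul_nonneg (Real.sqrt_nonneg _)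
    (add_nonneg (normSq_nonneg _) (normSq_nonneg _))
  linarith

lemma hopf_surj {q : ℝ × ℂ} (hq : q ≠ 0) : ∃ v, hopf v = q := by
  by_cases h1 : prj q (1, 0) = 0
  · by_cases h2 : prj q (0, 1) = 0
    · exfalso
      have h3 : 0 < Real.sqrt (nq q) := Real.sqrt_pos.2 (nq_pos hq)
      have e1 := congrArg Prod.fst h1
      have e2 := congrArg Prod.snd h2
      simp only [prj, mul_one, mul_zero, add_zero, zero_add, Prod.fst_zero, Prod.snd_zero] at e1 e2
      rw [ofReal_eq_zero] at e1 e2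
      linarith
    · exact ⟨_, hopf_lft h2⟩
  · exact ⟨_, hopf_lft h1⟩

lemma lft_def (q : ℝ × ℂ) (v : ℂ × ℂ) :
    lft q v = ((Real.sqrt (Real.sqrt (nq q) / nv (prj q v)) : ℝ) : ℂ) • prj q v := rfl

attribute [local irreducible] prj nq nv lft

lemma lft_cont {S : Type*} [TopologicalSpace S] {K : Set S} {a : S → ℝ × ℂ} {b : S → ℂ × ℂ}
    (ha : ContinuousOn a K) (hb : ContinuousOn b K) (h : ∀ x ∈ K, prj (a x) (b x) ≠ 0) :
    ContinuousOn (fun x => lft (a x) (b x)) K := by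
  have h1 : ContinuousOn (fun x => prj (a x) (b x)) K := by
    have := ha.prodMk hb
    exact Continuous.comp_continuousOn (g := fun p : (ℝ × ℂ) × (ℂ × ℂ) => prj p.1 p.2) prj_cont this
  have h20 : ContinuousOn (fun x => nq (a x)) K :=
    Continuous.comp_continuousOn (g := nq) nq_cont ha
  have h2 : ContinuousOn (fun x => Real.sqrt (nq (a x))) K := h20.sqrt
  have h3 : ContinuousOn (fun x => nv (prj (a x) (b x))) K :=
    Continuous.comp_continuousOn (g := nv) nv_cont h1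
  have h4 : ContinuousOn (fun x => Real.sqrt (nq (a x)) / nv (prj (a x) (b x))) K :=
    h2.div h3 (fun x hx => (nv_pos (h x hx)).ne')
  have h5 : ContinuousOn (fun x => ((Real.sqrt (Real.sqrt (nq (a x)) / nv (prj (a x) (b x))) : ℝ)
      : ℂ)) K :=
    Continuous.comp_continuousOn (g := fun r : ℝ => (r : ℂ)) continuous_ofReal h4.sqrt
  simp only [lft_def]
  exact h5.smul h1

/-- a continuous lift over a ball -/
theorem exists_lift {E : Type*} [NormedAddCommGroup E] [NormedSpace ℝ E] [ProperSpace E]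
    {a : E → ℝ × ℂ} (ha : Continuous a) (h0 : ∀ x, a x ≠ 0) (R : ℝ) :
    ∃ A : E → ℂ × ℂ, ContinuousOn A (Metric.closedBall 0 R) ∧
      ∀ x ∈ Metric.closedBall 0 R, hopf (A x) = a x := by
  classical
  rcases lt_or_ge R 0 with hR | hR
  · refine ⟨fun _ => 0, continuousOn_const, ?_⟩
    intro x hx
    rw [Metric.closedBall_eq_empty.2 hR] at hx
    exact absurd hx (notMem_empty _)
  set K : Set E := Metric.closedBall 0 R with hK
  have hKc : IsCompact K := isCompact_closedBall _ _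
  have hIK : IsCompact (Icc (0 : ℝ) 1 ×ˢ K) := isCompact_Icc.prod hKc
  set g : ℝ × E → ℝ × ℂ := fun p => a (p.1 • p.2) with hg
  have hgc : Continuous g := ha.comp (continuous_fst.smul continuous_snd)
  have hne : (Icc (0 : ℝ) 1 ×ˢ K).Nonempty :=
    ⟨(0, 0), ⟨⟨le_rfl, zero_le_one⟩, by simp [hK, hR]⟩⟩
  obtain ⟨p0, -, hp0⟩ := hIK.exists_isMinOn hne (nq_cont.comp hgc).continuousOn
  set c := nq (g p0) with hc
  have hcpos : 0 < c := nq_pos (h0 _)
  have hcle : ∀ p ∈ Icc (0 : ℝ) 1 ×ˢ K, c ≤ nq (g p) := fun p hp => hp0 hp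
  -- uniform continuity
  have hu := hIK.uniformContinuousOn_of_continuous hgc.continuousOn
  rw [Metric.uniformContinuousOn_iff] at hu
  obtain ⟨δ, hδ, hu⟩ := hu (Real.sqrt (c / 2)) (Real.sqrt_pos.2 (by linarith))
  obtain ⟨n, hn⟩ := exists_nat_gt (1 / δ)
  have hn0 : (0 : ℝ) < n := lt_trans (by positivity) hn
  have hnδ : 1 / (n : ℝ) < δ := by
    rw [div_lt_iff₀ hn0]
    rw [div_lt_iff₀ hδ] at hn
    linarith
  have hstep : ∀ k : ℕ, k + 1 ≤ n → ∀ x ∈ K,
      nq (a (((k + 1 : ℕ) / n : ℝ) • x) - a ((k / n : ℝ) • x)) < nq (a (((k + 1 : ℕ) / n : ℝ) • x)) := by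
    intro k hk x hx
    have hk1 : ((k + 1 : ℕ) / n : ℝ) ∈ Icc (0 : ℝ) 1 := by
      refine ⟨by positivity, ?_⟩
      rw [div_le_one hn0]
      exact_mod_cast hk
    have hk2 : ((k : ℕ) / n : ℝ) ∈ Icc (0 : ℝ) 1 := by
      refine ⟨by positivity, ?_⟩
      rw [div_le_one hn0]
      exact_mod_cast (Nat.le_succ k).trans hk
    have h1 := hcle (((k + 1 : ℕ) / n : ℝ), x) ⟨hk1, hx⟩
    have h2 : dist (g (((k + 1 : ℕ) / n : ℝ), x)) (g ((k / n : ℝ), x)) < Real.sqrt (c / 2) := by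
      apply hu _ ⟨hk1, hx⟩ _ ⟨hk2, hx⟩
      rw [Prod.dist_eq, dist_self, Real.dist_eq]
      have : ((k + 1 : ℕ) / n : ℝ) - k / n = 1 / n := by
        push_cast
        ring
      rw [this, abs_of_pos (by positivity), max_eq_left (by positivity)]
      exact hnδ
    refine lt_of_lt_of_le ?_ h1
    have h3 : ∀ q : ℝ × ℂ, ‖q‖ < Real.sqrt (c / 2) → nq q < c := by
      intro q hq
      have hq1 : |q.1| < Real.sqrt (c / 2) := lt_of_le_of_lt (norm_fst_le q) hq
      have hq2 : ‖q.2‖ < Real.sqrt (c / 2) := lt_of_le_of_lt (norm_snd_le q) hq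
      have hs : Real.sqrt (c / 2) ^ 2 = c / 2 := Real.sq_sqrt (by linarith)
      have e1 : q.1 ^ 2 < c / 2 := by
        rw [← hs, ← sq_abs]
        exact pow_lt_pow_left₀ hq1 (abs_nonneg _) two_ne_zero
      have e2 : normSq q.2 < c / 2 := by
        rw [normSq_eq_norm_sq, ← hs]
        exact pow_lt_pow_left₀ hq2 (norm_nonneg _) two_ne_zero
      unfold nq
      linarith
    apply h3
    rw [← dist_eq_norm]
    exact h2
  obtain ⟨v0, hv0⟩ := hopf_surj (h0 0)
  have key : ∀ k : ℕ, k ≤ n → ∃ A : E → ℂ × ℂ, ContinuousOn A K ∧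
      ∀ x ∈ K, hopf (A x) = a ((k / n : ℝ) • x) := by
    intro k
    induction k with
    | zero =>
      intro _
      refine ⟨fun _ => v0, continuousOn_const, fun x _ => ?_⟩
      simp [hv0]
    | succ k ih =>
      intro hk
      obtain ⟨A, hA, hA'⟩ := ih ((Nat.le_succ k).trans hk)
      have hne : ∀ x ∈ K, prj (a (((k + 1 : ℕ) / n : ℝ) • x)) (A x) ≠ 0 := by
        intro x hx
        apply prj_ne
        rw [hA' x hx]
        exact hstep k hk x hx
      refine ⟨fun x => lft (a (((k + 1 : ℕ) / n : ℝ) • x)) (A x), ?_, fun x hx => hopf_lft (hne x hx)⟩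
      exact lft_cont (ha.comp (continuous_const_smul _)).continuousOn hA hne
  obtain ⟨A, hA, hA'⟩ := key n le_rfl
  refine ⟨A, hA, fun x hx => ?_⟩
  rw [hA' x hx, div_self hn0.ne', one_smul]

end Pool.Agent.Q143.FQ
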