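import Pool.Agent.Q143.FQ.GTime

set_option autoImplicit false
open Set Topology Filter MeasureTheory

/-!
# A continuous section over the noncompact orbits

No local product structure is assumed: an orbit may return to a transversal many times, through
neighbourhoods of infinity.  The section is the barycentre of the first passage of the orbit
through a compact set.
-/

namespace Pool.Agent.Q143.FQ

variable {Y N : Type*} [MetricSpace Y] [TopologicalSpace N] {φ : ℝ → Y → Y} {f : Y → N}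

lemma ms_cont₂ [LocallyCompactSpace Y] (hφ : Continuous fun p : ℝ × Y => φ p.1 p.2) (ψ : C(Y, ℝ))
    (α : ℝ) : Continuous fun p : Y × ℝ => ms φ ψ α p.1 p.2 := by
  exact intervalIntegral.continuous_parametric_primitive_of_continuous
    (f := fun (y : Y) (s : ℝ) => ψ (φ s y))
    (ψ.continuous.comp (hφ.comp (by fun_prop : Continuous fun p : Y × ℝ => (p.2, p.1))))

lemma TT_cont [LocallyCompactSpace Y] (hφ : Continuous fun p : ℝ × Y => φ p.1 p.2) (ψ : C(Y, ℝ))
    (a α β : ℝ) : Continuous (TT φ ψ a α β) := by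
  unfold TT
  apply Continuous.div_const
  apply intervalIntegral.continuous_parametric_intervalIntegral_of_continuous'
  have h1 : Continuous fun p : Y × ℝ => ψ (φ p.2 p.1) :=
    ψ.continuous.comp (hφ.comp (by fun_prop : Continuous fun p : Y × ℝ => (p.2, p.1)))
  exact continuous_snd.mul (h1.mul ((eta_cont a).comp (ms_cont₂ hφ ψ α)))

/-- Over a compact set of noncompact orbits there is a continuous section. -/
theorem GFlow.exists_section [LocallyCompactSpace Y] [T2Space N] (h : GFlow φ f)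
    {K : Set N} (hK : IsCompact K) (hr : K ⊆ range f)
    (hfree : ∀ y, f y ∈ K → ∀ t, φ t y = y → t = 0) [Nonempty Y] :
    ∃ σ : N → Y, ContinuousOn σ K ∧ ∀ m ∈ K, f (σ m) = m := by
  classical
  have hφ := h.orbit_cont
  choose! p hp using fun m (hm : m ∈ K) => hr hm
  -- a compact set which meets all orbits over `K`
  obtain ⟨L, hL, hLK⟩ : ∃ L : Set Y, IsCompact L ∧ K ⊆ f '' L := by
    refine hK.induction_on (p := fun s => ∃ L : Set Y, IsCompact L ∧ s ⊆ f '' L) ?_ ?_ ?_ ?_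
    · exact ⟨∅, isCompact_empty, by simp⟩
    · rintro s t hst ⟨L, hL, hL'⟩
      exact ⟨L, hL, hst.trans hL'⟩
    · rintro s t ⟨L, hL, hL'⟩ ⟨L2, hL2, hL2'⟩
      refine ⟨L ∪ L2, hL.union hL2, ?_⟩
      rw [image_union]
      exact union_subset_union hL' hL2'
    · intro m hm
      obtain ⟨L, hL, hLn⟩ := exists_compact_mem_nhds (p m)
      refine ⟨f '' L, mem_nhdsWithin_of_mem_nhds ?_, L, hL, Subset.rfl⟩
      have := h.fopen.image_mem_nhds hLn
      rwa [hp m hm] at this
  rcases K.eq_empty_or_nonempty with hKe | hKne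
  · exact ⟨fun _ => Classical.arbitrary Y, by rw [hKe]; exact continuousOn_empty _,
      by rw [hKe]; simp⟩
  have hLne : L.Nonempty := by
    obtain ⟨m, hm⟩ := hKne
    obtain ⟨x, hx, -⟩ := hLK hm
    exact ⟨x, hx⟩
  obtain ⟨ψ, hψ1, -, hψc, hψ01⟩ := exists_continuous_one_zero_of_isCompact hL isClosed_empty
    (disjoint_empty L)
  have hψ0 : ∀ y, 0 ≤ ψ y := fun y => (hψ01 y).1
  -- the uniform lower bound for the mass
  have hgc : Continuous fun w : Y => ms φ ψ (-1) w 1 :=
    (ms_cont₂ h.cont ψ (-1)).comp (by fun_prop : Continuous fun w : Y => (w, (1 : ℝ)))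
  have hgpos : ∀ x ∈ L, 0 < ms φ ψ (-1) x 1 := by
    intro x hx
    have hc := psi_cont (ψ := ψ) hφ x
    have h0 : ψ (φ 0 x) = 1 := by rw [h.zero]; exact hψ1 hx
    unfold ms
    refine intervalIntegral.integral_pos (by norm_num) hc.continuousOn (fun t _ => hψ0 _)
      ⟨0, by norm_num, by rw [h0]; exact one_pos⟩
  obtain ⟨x0, hx0, hmin⟩ := hL.exists_isMinOn hLne hgc.continuousOn
  set a : ℝ := ms φ ψ (-1) x0 1 / 2 with ha_def
  have ha : 0 < a := half_pos (hgpos x0 hx0)
  have haL : ∀ x ∈ L, 2 * a ≤ ms φ ψ (-1) x 1 := by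
    intro x hx
    have : ms φ ψ (-1) x0 1 ≤ ms φ ψ (-1) x 1 := hmin hx
    rw [ha_def]
    linarith
  set S : Set Y := tsupport ψ with hS
  have hSc : IsCompact S := hψc
  have hψS : ∀ y, y ∉ S → ψ y = 0 := fun y hy => image_eq_zero_of_notMem_tsupport hy
  have hLS : L ⊆ S := by
    intro x hx
    apply subset_tsupport
    rw [Function.mem_support, hψ1 hx]
    exact one_ne_zero
  -- every orbit over `K` has good intervals
  have hgood : ∀ y, f y ∈ K → ∃ τ > 0, (∀ t, τ ≤ |t| → φ t y ∉ S) ∧ 2 * a ≤ ms φ ψ (-τ) y τ := by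
    intro y hy
    obtain ⟨τ0, hτ0, hesc⟩ := h.escape (hfree y hy) hSc
    obtain ⟨x, hx, hxy⟩ := hLK hy
    obtain ⟨c, hc⟩ := (h.fibre y x).1 hxy.symm
    refine ⟨max τ0 (|c| + 1), lt_max_of_lt_left hτ0,
      fun t ht => hesc t ((le_max_left _ _).trans ht), ?_⟩
    have h1 := haL x hx
    have h2 : ms φ ψ (-1) x 1 = ms φ ψ (-1 + c) y (1 + c) := by
      unfold ms
      rw [← hc]
      simp only [← h.add]
      rw [intervalIntegral.integral_comp_add_right (fun s => ψ (φ s y))]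
    have h3 : |c| + 1 ≤ max τ0 (|c| + 1) := le_max_right _ _
    set τ := max τ0 (|c| + 1)
    have h4 : -τ ≤ -1 + c := by linarith [neg_abs_le c]
    have h5 : 1 + c ≤ τ := by linarith [le_abs_self c]
    have h6 := ms_split (ψ := ψ) hφ (-τ) (-1 + c) (1 + c) y
    have h7 := ms_mono (φ := φ) hφ hψ0 (α := -τ) h5 y
    have h8 := ms_nonneg (φ := φ) hψ0 h4 y
    linarith
  have hG : ∀ y, f y ∈ K → ∀ τ > 0, (∀ t, τ ≤ |t| → φ t y ∉ S) → 2 * a ≤ ms φ ψ (-τ) y τ →
      Good φ ψ a (-τ) τ y := by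
    intro y _ τ hτ h1 h2
    refine ⟨by linarith, fun t ht => hψS _ (h1 t ?_), by linarith⟩
    rw [abs_of_nonpos (by linarith)]
    linarith
  choose! τ hτ0 hτe hτm using hgood
  -- the canonical time
  let T : Y → ℝ := fun y => TT φ ψ a (-(τ y)) (τ y) y
  have hTeq : ∀ y, f y ∈ K → ∀ α β, Good φ ψ a α β y → T y = TT φ ψ a α β y := by
    intro y hy α β hg
    exact hg.indep hφ hψ0 (hG y hy _ (hτ0 y hy) (hτe y hy) (hτm y hy))
  have hTshift : ∀ y, f y ∈ K → ∀ r, T (φ r y) = T y - r := by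
    intro y hy r
    have hg := hG y hy _ (hτ0 y hy) (hτe y hy) (hτm y hy)
    obtain ⟨g1, e1⟩ := hg.shift hφ h.add ha r
    rw [hTeq (φ r y) (by rw [h.f_flow]; exact hy) _ _ g1, e1]
  have hcanon : ∀ y, f y ∈ K → ∀ y', f y' = f y → φ (T y') y' = φ (T y) y := by
    intro y hy y' hy'
    obtain ⟨r, rfl⟩ := (h.fibre y y').1 hy'.symm
    rw [hTshift y hy r, ← h.add, sub_add_cancel]
  refine ⟨fun m => φ (T (p m)) (p m), ?_, fun m hm => by simp only; rw [h.f_flow, hp m hm]⟩
  intro n0 hn0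
  set y0 := p n0 with hy0
  have hfy0 : f y0 = n0 := hp n0 hn0
  have hy0K : f y0 ∈ K := by rw [hfy0]; exact hn0
  set t0 := τ y0 with ht0
  have ht0p := hτ0 y0 hy0K
  have ht0e := hτe y0 hy0K
  have ht0m := hτm y0 hy0K
  rw [ContinuousWithinAt, tendsto_nhds]
  intro V hVo hV0
  -- the neighbourhood of `y0`
  have hFc : Continuous fun w : Y => φ (TT φ ψ a (-t0) t0 w) w :=
    h.cont.comp ((TT_cont h.cont ψ a (-t0) t0).prodMk continuous_id)
  have hmc : Continuous fun w : Y => ms φ ψ (-t0) w t0 :=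
    (ms_cont₂ h.cont ψ (-t0)).comp (by fun_prop : Continuous fun w : Y => (w, t0))
  let W : Set Y := {w | φ (TT φ ψ a (-t0) t0 w) w ∈ V} ∩ {w | a < ms φ ψ (-t0) w t0}
  have hWo : IsOpen W := (hVo.preimage hFc).inter (isOpen_lt continuous_const hmc)
  have hW0 : y0 ∈ W := ⟨hV0, by
    change a < ms φ ψ (-t0) y0 t0
    linarith⟩
  let U : Set Y := ⋃ r ∈ Ioo (-t0) t0, φ (-r) ⁻¹' W
  have hUo : IsOpen U := isOpen_biUnion fun r _ => hWo.preimage (h.time_cont _)
  have hcomp : IsCompact (S \ U) := hSc.diff hUo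
  have hncl : IsClosed (f '' (S \ U)) := (hcomp.image h.fcont).isClosed
  have hn0' : n0 ∉ f '' (S \ U) := by
    rintro ⟨z, ⟨hzS, hzU⟩, hzf⟩
    obtain ⟨r, rfl⟩ := (h.fibre y0 z).1 (by rw [hfy0, hzf])
    apply hzU
    have hr : |r| < t0 := by
      by_contra hcon
      exact ht0e r (not_lt.1 hcon) hzS
    rw [abs_lt] at hr
    refine mem_biUnion (show r ∈ Ioo (-t0) t0 from hr) ?_
    change φ (-r) (φ r y0) ∈ W
    rw [h.neg_flow]
    exact hW0
  have hev : ∀ᶠ n in 𝓝[K] n0, n ∉ f '' (S \ U) :=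
    mem_nhdsWithin_of_mem_nhds (hncl.isOpen_compl.mem_nhds hn0')
  filter_upwards [hev, self_mem_nhdsWithin] with n hn hnK
  -- the first entrance point of the orbit over `n`
  have hpn : f (p n) ∈ K := by rw [hp n hnK]; exact hnK
  have hte := hτe (p n) hpn
  let E : Set ℝ := {t | φ t (p n) ∈ S}
  have hEcl : IsClosed E := hSc.isClosed.preimage (hφ (p n))
  have hEsub : E ⊆ Icc (-(τ (p n))) (τ (p n)) := by
    intro t ht
    have : |t| < τ (p n) := by
      by_contra hcon
      exact hte t (not_lt.1 hcon) ht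
    exact abs_le.1 this.le
  have hEc : IsCompact E := isCompact_Icc.of_isClosed_subset hEcl hEsub
  have hEne : E.Nonempty := by
    obtain ⟨x, hx, hxn⟩ := hLK hnK
    obtain ⟨t, ht⟩ := (h.fibre (p n) x).1 (by rw [hp n hnK, hxn])
    exact ⟨t, by
      change φ t (p n) ∈ S
      rw [ht]
      exact hLS hx⟩
  obtain ⟨s, hs, hsmin⟩ := hEc.exists_isLeast hEne
  set z := φ s (p n) with hz
  have hzS : z ∈ S := hs
  have hzf : f z = n := by rw [hz, h.f_flow, hp n hnK]
  have hzpast : ∀ t < 0, ψ (φ t z) = 0 := by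
    intro t ht
    apply hψS
    intro hmem
    have : t + s ∈ E := by
      change φ (t + s) (p n) ∈ S
      rw [h.add]
      exact hmem
    have := hsmin this
    linarith
  have hzU : z ∈ U := by
    by_contra hcon
    exact hn ⟨z, ⟨hzS, hcon⟩, hzf⟩
  obtain ⟨r, hrI, hrW⟩ := mem_iUnion₂.1 hzU
  set w := φ (-r) z with hw
  have hwW : w ∈ W := hrW
  have hwf : f w = n := by rw [hw, h.f_flow, hzf]
  have hgw : Good φ ψ a (-t0) t0 w := by
    refine ⟨by linarith, fun t ht => ?_, hwW.2.le⟩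
    rw [hw, ← h.add]
    exact hzpast _ (by linarith [hrI.1])
  have h1 : φ (T (p n)) (p n) = φ (T w) w :=
    (hcanon (p n) hpn w (by rw [hwf, hp n hnK])).symm
  rw [mem_preimage, h1, hTeq w (by rw [hwf]; exact hnK) _ _ hgw]
  exact hwW.1

end Pool.Agent.Q143.FQ
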