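import Pool.Agent.Q143.FQ.GTor
import Pool.Agent.Q143.FQ.GBData
import Pool.Agent.Q143.FQ.GSection

set_option autoImplicit false
open Set Topology Filter
open Pool.Agent.H289R3.FQ

/-!
# Orbit spaces with three independent maps to `ℝ³ ∖ 0`

The proof follows `H289R3.FQ.Main`.
-/

namespace Pool.Agent.Q143.FQ

lemma hh_int (s t : ℝ) (m n : ℤ) : hh (s + m) (t + n) = hh s t := by
  have h1 : Function.Periodic (fun s => hh s (t + n)) 1 := fun s => hh_fst s _
  have h2 : Function.Periodic (fun t => hh s t) 1 := fun t => hh_snd s t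
  have h3 := (h1.int_mul m) s
  have h4 := (h2.int_mul n) t
  simp only [mul_one] at h3 h4
  rw [h3, h4]

theorem not_realized {E N : Type*} [NormedAddCommGroup E] [NormedSpace ℝ E] [ProperSpace E]
    [TopologicalSpace N] [T2Space N] {φ : ℝ → E → E} {f : E → N} (h : GFlow φ f)
    {q : Fin 3 → N → ℝ × ℂ} (hq : ∀ i, Continuous (q i)) (hq0 : ∀ i n, q i n ≠ 0)
    {e : (Fin 5 → ℝ) → N} (he : Continuous e)
    (hint : ∀ (y : Fin 5 → ℝ) (k : Fin 5 → ℤ), e (fun j => y j + k j) = e y)
    (hsurj : ∀ y, ∃ x, f x = e y)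
    (he0 : ∀ y, q 0 (e y) = hh (y 0) (y 1)) (he1 : ∀ y, q 1 (e y) = hh (y 2) (y 4))
    (he2 : ∀ y, q 2 (e y) = hh (y 2) (y 3)) (hTorus : TaskTorus) : False := by
  classical
  have hper : ∀ y j, e (y + ee j) = e y := by
    intro y j
    have : y + ee j = fun i => y i + ((Pi.single j 1 : Fin 5 → ℤ) i : ℝ) := by
      funext i
      simp only [Pi.add_apply, ee]
      by_cases h : i = j
      · subst h; simp
      · simp [h]
    rw [this, hint]
  have : Nonempty E := ⟨0⟩
  -- the torus and its bad part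
  have hTc : IsCompact (range e) := by
    have : range e = e '' Icc 0 1 := by
      apply Subset.antisymm
      · rintro _ ⟨y, rfl⟩
        refine ⟨fun j => Int.fract (y j), ⟨fun j => Int.fract_nonneg _, fun j => (Int.fract_lt_one _).le⟩, ?_⟩
        rw [← hint (fun j => Int.fract (y j)) (fun j => ⌊y j⌋)]
        congr 1
        funext j
        exact Int.fract_add_floor (y j)
      · rintro _ ⟨y, -, rfl⟩
        exact ⟨y, rfl⟩
    rw [this]
    exact isCompact_Icc.image he
  let K : Set N := {m | m ∈ range e ∧ ¬ IsCompact (f ⁻¹' {m})}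
  have hKc : IsCompact K := by
    apply hTc.of_isClosed_subset _ (fun m hm => hm.1)
    rw [← isOpen_compl_iff, isOpen_iff_mem_nhds]
    intro m hm
    by_cases hmT : m ∈ range e
    · have hmc : IsCompact (f ⁻¹' {m}) := by
        by_contra hcon
        exact hm ⟨hmT, hcon⟩
      obtain ⟨y, rfl⟩ := hmT
      obtain ⟨x, hx⟩ := hsurj y
      rw [← hx] at hmc ⊢
      filter_upwards [h.compact_nhds hmc] with n hn hn'
      exact hn'.2 hn
    · filter_upwards [hTc.isClosed.isOpen_compl.mem_nhds hmT] with n hn hn'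
      exact hn hn'.1
  obtain ⟨σ, hσc, hσ⟩ := h.exists_section hKc (by
    rintro m ⟨⟨y, rfl⟩, -⟩
    exact hsurj y) (by
    intro x hx t ht
    by_contra hne
    exact hx.2 (h.compact_of_periodic hne ht))
  -- a bound on the section
  have hbound : ∀ L : Set E, IsCompact L → ∃ R : ℝ, ∀ x ∈ L, ‖x‖ < R := by
    intro L hL
    obtain ⟨B, hB⟩ := hL.exists_bound_of_continuousOn (f := fun x : E => x)
      continuous_id.continuousOn
    exact ⟨B + 1, fun x hx => (hB x hx).trans_lt (lt_add_one _)⟩
  -- lifts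
  have hlift : ∀ i (R : ℝ), ∃ A : E → ℂ × ℂ, ContinuousOn A (Metric.closedBall 0 R) ∧
      ∀ x ∈ Metric.closedBall 0 R, hopf (A x) = q i (f x) := fun i R =>
    exists_lift ((hq i).comp h.fcont) (fun x => hq0 i _) R
  obtain ⟨R₁, hR₁⟩ := hbound _ (hKc.image_of_continuousOn hσc)
  obtain ⟨A₀, hA₀c, hA₀⟩ := hlift 0 R₁
  -- the bad set in the universal cover of the torus
  let C : Set (Fin 5 → ℝ) := {y | e y ∈ K}
  have hCint : ∀ (y : Fin 5 → ℝ) (k : Fin 5 → ℤ), y ∈ C ↔ (fun j => y j + k j) ∈ C := by
    intro y k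
    simp only [C, mem_ofPred_eq, hint]
  have hσR : ∀ y ∈ C, σ (e y) ∈ Metric.closedBall (0 : E) R₁ := fun y hy => by
    rw [mem_closedBall_zero_iff]
    exact (hR₁ _ ⟨_, hy, rfl⟩).le
  have hhσ : ∀ y ∈ C, hopf (A₀ (σ (e y))) = hh (y 0) (y 1) := by
    intro y hy
    rw [hA₀ _ (hσR y hy), hσ _ hy, he0]
  refine hTorus C (hKc.isClosed.preimage he) ?_
    (fun y => dd (y 0) (y 1) (A₀ (σ (e y)))) ?_ ?_ ?_
  · intro y j
    simp only [C, mem_ofPred_eq, hper]
  · apply dd_contOn (Continuous.continuousOn (by fun_prop)) (Continuous.continuousOn (by fun_prop))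
    · exact hA₀c.comp (hσc.comp he.continuousOn (fun y hy => hy)) hσR
    · exact hhσ
  · intro y hy j
    simp only [hper]
    have h1 := dd_fst (y 0) (y 1) (A₀ (σ (e y)))
    have h2 := dd_snd (hhσ y hy)
    by_cases hj0 : j = 0
    · subst hj0
      simp only [Pi.add_apply, ee, Pi.single_eq_same]
      rw [if_neg (by decide), add_zero]
      have : (Pi.single 0 1 : Fin 5 → ℝ) 1 = 0 := by simp
      rw [this, add_zero]
      exact h1
    · by_cases hj1 : j = 1
      · subst hj1
        simp only [Pi.add_apply, ee, Pi.single_eq_same, if_true]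
        have : (Pi.single 1 1 : Fin 5 → ℝ) 0 = 0 := by simp
        rw [this, add_zero]
        exact h2
      · simp only [Pi.add_apply, ee]
        have e0 : (Pi.single j 1 : Fin 5 → ℝ) 0 = 0 := by simp [Ne.symm hj0]
        have e1 : (Pi.single j 1 : Fin 5 → ℝ) 1 = 0 := by simp [Ne.symm hj1]
        rw [e0, e1, if_neg hj1]
        simp
  · intro δ hδ
    let A : Set (Fin 5 → ℝ) := {y | ∀ c ∈ C, δ ≤ dist y c}
    have hAcl : IsClosed A := by
      have : A = ⋂ c ∈ C, {y | δ ≤ dist y c} := by
        ext y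
        simp [A]
      rw [this]
      exact isClosed_biInter fun c _ => isClosed_le continuous_const (by fun_prop)
    have hAc : ∀ y ∈ A, IsCompact (f ⁻¹' {e y}) := by
      intro y hy
      by_contra hcon
      have hyC : y ∈ C := ⟨⟨y, rfl⟩, hcon⟩
      have := hy y hyC
      rw [dist_self] at this
      linarith
    have hTA : IsCompact (e '' A) := by
      have : e '' A = e '' (A ∩ Icc 0 1) := by
        apply Subset.antisymm
        · rintro _ ⟨y, hy, rfl⟩
          refine ⟨fun j => Int.fract (y j), ⟨?_, fun j => Int.fract_nonneg _,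
            fun j => (Int.fract_lt_one _).le⟩, ?_⟩
          · intro c hc
            have h1 := hy (fun j => c j + (⌊y j⌋ : ℤ)) ((hCint c _).1 hc)
            have h2 : dist (fun j => Int.fract (y j)) c =
                dist y (fun j => c j + (⌊y j⌋ : ℤ)) := by
              rw [dist_eq_norm, dist_eq_norm]
              congr 1
              funext j
              simp only [Pi.sub_apply]
              have := Int.fract_add_floor (y j)
              linarith
            rw [h2]
            exact h1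
          · rw [← hint (fun j => Int.fract (y j)) (fun j => ⌊y j⌋)]
            congr 1
            funext j
            exact Int.fract_add_floor (y j)
        · exact image_mono inter_subset_left
      rw [this]
      exact (isCompact_Icc.inter_left hAcl).image he
    obtain ⟨L, hL, hLA⟩ : ∃ L : Set E, IsCompact L ∧ ∀ m ∈ e '' A, f ⁻¹' {m} ⊆ L := by
      refine hTA.induction_on (p := fun s => ∃ L : Set E, IsCompact L ∧
        ∀ m ∈ s, f ⁻¹' {m} ⊆ L) ?_ ?_ ?_ ?_
      · exact ⟨∅, isCompact_empty, by simp⟩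
      · rintro s t hst ⟨L, hL, hL'⟩
        exact ⟨L, hL, fun m hm => hL' m (hst hm)⟩
      · rintro s t ⟨L, hL, hL'⟩ ⟨L2, hL2, hL2'⟩
        refine ⟨L ∪ L2, hL.union hL2, ?_⟩
        rintro m (hm | hm)
        · exact (hL' m hm).trans subset_union_left
        · exact (hL2' m hm).trans subset_union_right
      · rintro _ ⟨y, hy, rfl⟩
        obtain ⟨x, hx⟩ := hsurj y
        have hc := hAc y hy
        rw [← hx] at hc ⊢
        obtain ⟨L, hL, -, hev⟩ := h.stable hc isOpen_univ (subset_univ _)
        exact ⟨_, mem_nhdsWithin_of_mem_nhds hev, L, hL, fun m hm => hm⟩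
    obtain ⟨R₂, hR₂⟩ := hbound L hL
    obtain ⟨A₁, hA₁c, hA₁⟩ := hlift 1 R₂
    obtain ⟨A₂, hA₂c, hA₂⟩ := hlift 2 R₂
    have hsub : Metric.ball (0 : E) R₂ ⊆ Metric.closedBall 0 R₂ := Metric.ball_subset_closedBall
    have hh1 : ∀ x y, x ∈ Metric.ball (0 : E) R₂ → f x = e y → hopf (A₁ x) = hh (y 2) (y 4) := by
      intro x y hx hxy
      rw [hA₁ x (hsub hx), hxy, he1]
    have hh2 : ∀ x y, x ∈ Metric.ball (0 : E) R₂ → f x = e y → hopf (A₂ x) = hh (y 2) (y 3) := by
      intro x y hx hxy
      rw [hA₂ x (hsub hx), hxy, he2]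
    refine gbdata h he hper hsurj (O := Metric.ball 0 R₂) Metric.isOpen_ball
      (D₁ := fun p => dd (p.2 2) (p.2 4) (A₁ p.1)) (D₂ := fun p => dd (p.2 2) (p.2 3) (A₂ p.1))
      ?_ ?_ ?_ ?_ (K := A) ?_
    · apply dd_contOn (Continuous.continuousOn (by fun_prop))
        (Continuous.continuousOn (by fun_prop))
      · exact hA₁c.comp continuous_fst.continuousOn (fun p hp => hsub hp.1)
      · exact fun p hp => hh1 _ _ hp.1 hp.2
    · apply dd_contOn (Continuous.continuousOn (by fun_prop))
        (Continuous.continuousOn (by fun_prop))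
      · exact hA₂c.comp continuous_fst.continuousOn (fun p hp => hsub hp.1)
      · exact fun p hp => hh2 _ _ hp.1 hp.2
    · intro x y hx hxy j
      have h1 := dd_fst (y 2) (y 4) (A₁ x)
      have h2 := dd_snd (hh1 x y hx hxy)
      simp only [Pi.add_apply, ee]
      by_cases hj2 : j = 2
      · subst hj2
        have e4 : (Pi.single 2 1 : Fin 5 → ℝ) 4 = 0 := by simp
        rw [Pi.single_eq_same, e4, add_zero, if_neg (by decide)]
        simpa using h1
      · have e2 : (Pi.single j 1 : Fin 5 → ℝ) 2 = 0 := by simp [Ne.symm hj2]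
        rw [e2, add_zero]
        by_cases hj4 : j = 4
        · subst hj4
          rw [Pi.single_eq_same, if_pos rfl]
          exact h2
        · have e4 : (Pi.single j 1 : Fin 5 → ℝ) 4 = 0 := by simp [Ne.symm hj4]
          rw [e4, add_zero, if_neg hj4]
          simp
    · intro x y hx hxy j
      have h1 := dd_fst (y 2) (y 3) (A₂ x)
      have h2 := dd_snd (hh2 x y hx hxy)
      simp only [Pi.add_apply, ee]
      by_cases hj2 : j = 2
      · subst hj2
        have e4 : (Pi.single 2 1 : Fin 5 → ℝ) 3 = 0 := by simp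
        rw [Pi.single_eq_same, e4, add_zero, if_neg (by decide)]
        simpa using h1
      · have e2 : (Pi.single j 1 : Fin 5 → ℝ) 2 = 0 := by simp [Ne.symm hj2]
        rw [e2, add_zero]
        by_cases hj4 : j = 3
        · subst hj4
          rw [Pi.single_eq_same, if_pos rfl]
          exact h2
        · have e4 : (Pi.single j 1 : Fin 5 → ℝ) 3 = 0 := by simp [Ne.symm hj4]
          rw [e4, add_zero, if_neg hj4]
          simp
    · intro y hy
      exact ⟨hAc y hy, fun x hx => mem_ball_zero_iff.2 (hR₂ x (hLA _ ⟨y, hy, rfl⟩ hx))⟩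

end Pool.Agent.Q143.FQ
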