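import Pool.Agent.Q143.FQ.GBase
import Pool.Agent.H289R3.FQ.Null

set_option autoImplicit false
open Set Topology Filter
open Pool.Agent.H289R3.FQ

/-! Adapted from `H289R3.FQ.Null`. -/

namespace Pool.Agent.Q143.FQ

variable {Y N : Type*} [TopologicalSpace Y] [TopologicalSpace N] {φ : ℝ → Y → Y} {f : Y → N}

theorem GFlow.val_eq (h : GFlow φ f) {D : Y → T1} {n : N} (hc : IsCompact (f ⁻¹' {n}))
    {l : Y → ℝ} (hl : ContinuousOn l (f ⁻¹' {n})) (hD : ∀ z ∈ f ⁻¹' {n}, ((l z : ℝ) : T1) = D z) :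
    val f D n = ((sSup (l '' (f ⁻¹' {n})) : ℝ) : T1) := by
  have hN : Null f D n := ⟨l, hl, hD⟩
  unfold val
  rw [dif_pos hN]
  obtain ⟨hl', hD'⟩ := hN.choose_spec
  set l' := hN.choose with hl'def
  rcases (f ⁻¹' {n}).eq_empty_or_nonempty with he | ⟨z0, hz0⟩
  · rw [he, image_empty, image_empty]
  · have hu := lift_unique (h.conn n) hl hl' (fun z hz => by rw [hD z hz, hD' z hz]) hz0
    have himg : l' '' (f ⁻¹' {n}) = (fun x => x + (l' z0 - l z0)) '' (l '' (f ⁻¹' {n})) := by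
      rw [image_image]
      exact image_congr hu
    have hi : (((l' z0 - l z0 : ℝ)) : T1) = 0 := by
      rw [AddCircle.coe_sub, hD z0 hz0, hD' z0 hz0, sub_self]
    rw [himg, sSup_add_const (Set.Nonempty.image l ⟨z0, hz0⟩)
      (hc.image_of_continuousOn hl).bddAbove,
      AddCircle.coe_add, hi, add_zero]

theorem GFlow.val_cont [T2Space Y] [NormalSpace Y] [LocallyCompactSpace Y] [T2Space N]
    (h : GFlow φ f) {D : Y → T1} (hDc : Continuous D)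
    {y0 : Y} (hc : IsCompact (f ⁻¹' {f y0})) (hN : Null f D (f y0)) :
    ContinuousAt (val f D) (f y0) ∧ ∀ᶠ n in 𝓝 (f y0), Null f D n := by
  obtain ⟨l0, hl0, hlD0⟩ := hN
  obtain ⟨O, l, hO, hKO, hl, hlD⟩ := null_nhds hDc hc.isClosed hl0 hlD0
  obtain ⟨L, hL, hLO, hev⟩ := h.stable hc hO hKO
  have hcn : ∀ᶠ n in 𝓝 (f y0), IsCompact (f ⁻¹' {n}) := h.compact_nhds hc
  have hval : ∀ᶠ n in 𝓝 (f y0), val f D n = ((sSup (l '' (f ⁻¹' {n})) : ℝ) : T1) := by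
    filter_upwards [hev, hcn] with n hn hn'
    exact h.val_eq hn' (hl.mono (hn.trans hLO)) (fun z hz => hlD z (hLO (hn hz)))
  refine ⟨?_, ?_⟩
  swap
  · filter_upwards [hev] with n hn
    exact ⟨l, hl.mono (hn.trans hLO), fun z hz => hlD z (hLO (hn hz))⟩
  set m0 := sSup (l '' (f ⁻¹' {f y0})) with hm0
  have hlim : Tendsto (fun n => sSup (l '' (f ⁻¹' {n}))) (𝓝 (f y0)) (𝓝 m0) := by
    rw [Metric.tendsto_nhds]
    intro ε hε
    have hbd0 : BddAbove (l '' (f ⁻¹' {f y0})) :=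
      (hc.image_of_continuousOn (hl.mono hKO)).bddAbove
    have hle0 : ∀ z ∈ f ⁻¹' {f y0}, l z ≤ m0 := fun z hz => le_csSup hbd0 ⟨z, hz, rfl⟩
    -- upper bound
    have hO1 : IsOpen (O ∩ l ⁻¹' Iio (m0 + ε / 2)) := hl.isOpen_inter_preimage hO isOpen_Iio
    obtain ⟨L1, -, hL1O, hev1⟩ := h.stable hc hO1 (fun z hz => ⟨hKO hz, by
      change l z < m0 + ε / 2
      linarith [hle0 z hz]⟩)
    -- lower bound
    obtain ⟨z0, hz0, hz0m⟩ := hc.exists_isMaxOn ⟨y0, rfl⟩ (hl.mono hKO)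
    have hz0' : m0 ≤ l z0 := csSup_le (Set.Nonempty.image l ⟨y0, rfl⟩)
      (by rintro _ ⟨z, hz, rfl⟩; exact hz0m hz)
    have hO2 : IsOpen (O ∩ l ⁻¹' Ioi (m0 - ε / 2)) := hl.isOpen_inter_preimage hO isOpen_Ioi
    have hev2 : ∀ᶠ n in 𝓝 (f y0), n ∈ f '' (O ∩ l ⁻¹' Ioi (m0 - ε / 2)) :=
      (h.fopen _ hO2).mem_nhds ⟨z0, ⟨hKO hz0, by
        change m0 - ε / 2 < l z0
        linarith⟩, hz0⟩
    filter_upwards [hev, hev1, hev2, hcn] with n hn hn1 hn2 hn3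
    obtain ⟨z, ⟨hzO, hzl⟩, hzn⟩ := hn2
    have hbd : BddAbove (l '' (f ⁻¹' {n})) :=
      (hn3.image_of_continuousOn (hl.mono (hn.trans hLO))).bddAbove
    have h1 : l z ≤ sSup (l '' (f ⁻¹' {n})) := le_csSup hbd ⟨z, hzn, rfl⟩
    have h2 : sSup (l '' (f ⁻¹' {n})) ≤ m0 + ε / 2 := by
      apply csSup_le (Set.Nonempty.image l ⟨z, hzn⟩)
      rintro _ ⟨w, hw, rfl⟩
      exact (hL1O (hn1 hw)).2.le
    have h3 : m0 - ε / 2 < l z := hzl
    rw [Real.dist_eq, abs_lt]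
    constructor <;> linarith
  rw [ContinuousAt, hval.self_of_nhds]
  exact (((AddCircle.continuous_mk' (1 : ℝ)).tendsto m0).comp hlim).congr' (by
    filter_upwards [hval] with n hn
    exact hn.symm)

theorem GFlow.val_translate (h : GFlow φ f) {D : Y → T1} {n n' : N}
    (hc : IsCompact (f ⁻¹' {n})) (hc' : IsCompact (f ⁻¹' {n'})) (hne : (f ⁻¹' {n}).Nonempty)
    (τ : Y ≃ₜ Y) (hτ : ∀ z, f z = n ↔ f (τ z) = n') {c : ℝ}
    (hD : ∀ z ∈ f ⁻¹' {n}, D (τ z) = D z + (c : T1)) (hN : Null f D n) :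
    Null f D n' ∧ val f D n' = val f D n + (c : T1) := by
  obtain ⟨l, hl, hlD⟩ := hN
  have hmem : ∀ z ∈ f ⁻¹' {n'}, τ.symm z ∈ f ⁻¹' {n} := by
    intro z hz
    change f (τ.symm z) = n
    rw [hτ, τ.apply_symm_apply]
    exact hz
  have hl' : ContinuousOn (fun z => l (τ.symm z) + c) (f ⁻¹' {n'}) :=
    (hl.comp τ.symm.continuous.continuousOn hmem).add continuousOn_const
  have hlD' : ∀ z ∈ f ⁻¹' {n'}, ((l (τ.symm z) + c : ℝ) : T1) = D z := by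
    intro z hz
    rw [AddCircle.coe_add, hlD _ (hmem z hz), ← hD _ (hmem z hz), τ.apply_symm_apply]
  refine ⟨⟨_, hl', hlD'⟩, ?_⟩
  rw [h.val_eq hc' hl' hlD', h.val_eq hc hl hlD]
  have himg : (fun z => l (τ.symm z) + c) '' (f ⁻¹' {n'}) =
      (fun x => x + c) '' (l '' (f ⁻¹' {n})) := by
    ext x
    constructor
    · rintro ⟨z, hz, rfl⟩
      exact ⟨_, ⟨_, hmem z hz, rfl⟩, rfl⟩
    · rintro ⟨_, ⟨z, hz, rfl⟩, rfl⟩
      refine ⟨τ z, (hτ z).1 hz, ?_⟩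
      simp only [τ.symm_apply_apply]
  rw [himg, sSup_add_const (hne.image _) (hc.image_of_continuousOn hl).bddAbove,
    AddCircle.coe_add]

end Pool.Agent.Q143.FQ
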