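import Pool.Agent.Q143.FQ.GMain
import Pool.Agent.Y364.E3.Top

set_option autoImplicit false
open Set Topology Filter
open Pool.Agent.H289R3.FQ

/-!
# The manifold `(ℝ³ ∖ 0)³`
-/

namespace Pool.Agent.Q143.FQ

/-- coordinates on `ℝ⁹` -/
noncomputable def LL : EuclideanSpace ℝ (Fin 9) ≃L[ℝ] (Fin 3 → ℝ × ℂ) :=
  ContinuousLinearEquiv.ofFinrankEq (by
    rw [finrank_euclideanSpace_fin, Module.finrank_pi_fintype]
    simp [Complex.finrank_real_complex])

/-- the manifold `(ℝ³ ∖ 0)³` as an open subset of `ℝ⁹` -/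
noncomputable def Q0 : TopologicalSpace.Opens (EuclideanSpace ℝ (Fin 9)) :=
  ⟨{z | ∀ i, LL z i ≠ 0}, by
    have : {z | ∀ i, LL z i ≠ 0} = ⋂ i, {z | LL z i ≠ 0} := by
      ext z
      simp
    rw [this]
    exact isOpen_iInter_of_finite fun i =>
      isOpen_ne.preimage ((continuous_apply i).comp LL.continuous)⟩

theorem sc_factor : SimplyConnectedSpace {v : ℝ × ℂ // v ≠ 0} := by
  have h1 := Y364.E3.sc_compl_zero
  let e : (ℝ × ℂ) ≃L[ℝ] (EuclideanSpace ℝ (Fin 3)) := ContinuousLinearEquiv.ofFinrankEq (by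
    rw [finrank_euclideanSpace_fin, Module.finrank_prod]
    simp [Complex.finrank_real_complex])
  let e' : {v : ℝ × ℂ // v ≠ 0} ≃ₜ ({0}ᶜ : Set (EuclideanSpace ℝ (Fin 3))) :=
    e.toHomeomorph.subtype (fun z => by simp)
  exact e'.toHomotopyEquiv.simplyConnectedSpace

theorem sc_Q0 : SimplyConnectedSpace Q0 := by
  have h1 := sc_factor
  have h2 := H774R3.sc_pi (fun _ : Fin 3 => {v : ℝ × ℂ // v ≠ 0})
  let e : Q0 ≃ₜ (Fin 3 → {v : ℝ × ℂ // v ≠ 0}) :=
    { toFun := fun x i => ⟨LL x.1 i, x.2 i⟩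
      invFun := fun x => ⟨LL.symm (fun i => (x i).1), fun i => by
        rw [LL.apply_symm_apply]
        exact (x i).2⟩
      left_inv := fun x => by
        apply Subtype.ext
        exact LL.symm_apply_apply x.1
      right_inv := fun x => by
        funext i
        apply Subtype.ext
        exact congrFun (LL.apply_symm_apply (fun i => (x i).1)) i
      continuous_toFun := by
        refine continuous_pi fun i => ?_
        exact Continuous.subtype_mk
          ((continuous_apply i).comp (LL.continuous.comp continuous_subtype_val)) _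
      continuous_invFun := by
        refine Continuous.subtype_mk ?_ _
        refine LL.symm.continuous.comp (continuous_pi fun i => ?_)
        exact continuous_subtype_val.comp (continuous_apply i) }
  exact e.toHomotopyEquiv.simplyConnectedSpace

/-- the three factors of the map of the torus -/
noncomputable def ev (y : Fin 5 → ℝ) : Fin 3 → ℝ × ℂ :=
  ![hh (y 0) (y 1), hh (y 2) (y 4), hh (y 2) (y 3)]

lemma ev_cont : Continuous ev := by
  have h : ∀ a b : Fin 5, Continuous fun y : Fin 5 → ℝ => hh (y a) (y b) := fun a b =>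
    Continuous.comp (g := fun p : ℝ × ℝ => hh p.1 p.2) hh_cont
      (f := fun y : Fin 5 → ℝ => (y a, y b)) (by fun_prop)
  refine continuous_pi fun i => ?_
  fin_cases i
  · exact h 0 1
  · exact h 2 4
  · exact h 2 3

lemma ev_ne (y : Fin 5 → ℝ) (i : Fin 3) : ev y i ≠ 0 := by
  fin_cases i
  · exact hh_ne _ _
  · exact hh_ne _ _
  · exact hh_ne _ _

lemma ev_int (y : Fin 5 → ℝ) (k : Fin 5 → ℤ) : ev (fun j => y j + k j) = ev y := by
  simp only [ev, hh_int]

/-- the map of the torus -/
noncomputable def em (y : Fin 5 → ℝ) : Q0 :=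
  ⟨LL.symm (ev y), fun i => by
    rw [LL.apply_symm_apply]
    exact ev_ne y i⟩

lemma em_cont : Continuous em := by
  refine Continuous.subtype_mk ?_ _
  exact LL.symm.continuous.comp ev_cont

lemma em_int (y : Fin 5 → ℝ) (k : Fin 5 → ℤ) : em (fun j => y j + k j) = em y := by
  apply Subtype.ext
  simp only [em, ev_int]

lemma em_apply (y : Fin 5 → ℝ) (i : Fin 3) : LL (em y).1 i = ev y i := by
  simp only [em]
  rw [LL.apply_symm_apply]

/-- a continuous flow on a proper normed space has no orbit space homeomorphic to `(ℝ³ ∖ 0)³` -/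
theorem no_homeo {E : Type*} [NormedAddCommGroup E] [NormedSpace ℝ E] [ProperSpace E]
    {Φ : ℝ → E → E} (hc : Continuous fun p : ℝ × E => Φ p.1 p.2) (h0 : ∀ x, Φ 0 x = x)
    (hadd : ∀ (s t : ℝ) (x : E), Φ (s + t) x = Φ s (Φ t x))
    (Ψ : Quot (fun x y : E => ∃ t : ℝ, Φ t x = y) ≃ₜ Q0) (hTorus : TaskTorus) : False := by
  have hequiv : Equivalence (fun x y : E => ∃ t : ℝ, Φ t x = y) := by
    refine ⟨fun x => ⟨0, h0 x⟩, ?_, ?_⟩
    · rintro x _ ⟨t, rfl⟩
      refine ⟨-t, ?_⟩
      rw [← hadd, neg_add_cancel, h0]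
    · rintro x _ _ ⟨t, rfl⟩ ⟨s, rfl⟩
      exact ⟨s + t, hadd s t x⟩
  have hG : GFlow Φ (fun x => Ψ (Quot.mk _ x)) := by
    refine ⟨hc, h0, hadd, Ψ.continuous.comp continuous_quot_mk, ?_, ?_⟩
    · have : IsOpenMap (Quot.mk (fun x y : E => ∃ t : ℝ, Φ t x = y)) := by
        intro O hO
        rw [← isQuotientMap_quot_mk.isOpen_preimage]
        have : Quot.mk (fun x y : E => ∃ t : ℝ, Φ t x = y) ⁻¹'
            (Quot.mk (fun x y : E => ∃ t : ℝ, Φ t x = y) '' O) = ⋃ t, Φ t ⁻¹' O := by
          ext x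
          simp only [mem_preimage, mem_image, mem_iUnion]
          constructor
          · rintro ⟨y, hy, hyx⟩
            obtain ⟨t, rfl⟩ := (hequiv.quot_mk_eq_iff x y).1 hyx.symm
            exact ⟨t, hy⟩
          · rintro ⟨t, ht⟩
            exact ⟨_, ht, (Quot.sound ⟨t, rfl⟩).symm⟩
        rw [this]
        exact isOpen_iUnion fun t => hO.preimage
          (hc.comp (continuous_const.prodMk continuous_id))
      exact Ψ.isOpenMap.comp this
    · intro x y
      rw [Ψ.injective.eq_iff]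
      exact hequiv.quot_mk_eq_iff x y
  refine not_realized hG (q := fun i z => LL z.1 i) ?_ (fun i z => z.2 i) em_cont em_int ?_
    (fun y => em_apply y 0) (fun y => em_apply y 1) (fun y => em_apply y 2) hTorus
  · intro i
    exact (continuous_apply i).comp (LL.continuous.comp continuous_subtype_val)
  · intro y
    obtain ⟨x, hx⟩ := Quot.exists_rep (Ψ.symm (em y))
    exact ⟨x, by rw [hx, Ψ.apply_symm_apply]⟩

end Pool.Agent.Q143.FQ
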