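import Pool.Agent.Q143.FQ.GBase

set_option autoImplicit false
open Set Topology Filter MeasureTheory

/-!
# The barycentre of the first passage

For a nonnegative continuous function `ψ` along an orbit which vanishes in the past and has mass
at least `a`, the mean time `TT` of the first part of the mass (weighted by `eta`).
-/

namespace Pool.Agent.Q143.FQ

variable {Y : Type*} [TopologicalSpace Y]

/-- the mass between the times `α` and `t` -/
noncomputable def ms (φ : ℝ → Y → Y) (ψ : C(Y, ℝ)) (α : ℝ) (y : Y) (t : ℝ) : ℝ :=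
  ∫ s in α..t, ψ (φ s y)

/-- the cut-off -/
noncomputable def eta (a m : ℝ) : ℝ := max 0 (a - m)

/-- the total weight -/
noncomputable def c0 (a : ℝ) : ℝ := ∫ u in (0 : ℝ)..a, eta a u

/-- the mean time -/
noncomputable def TT (φ : ℝ → Y → Y) (ψ : C(Y, ℝ)) (a α β : ℝ) (y : Y) : ℝ :=
  (∫ t in α..β, t * (ψ (φ t y) * eta a (ms φ ψ α y t))) / c0 a

/-- `[α, β]` contains the first part of the mass of the orbit of `y` -/
def Good (φ : ℝ → Y → Y) (ψ : C(Y, ℝ)) (a α β : ℝ) (y : Y) : Prop :=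
  α ≤ β ∧ (∀ t ≤ α, ψ (φ t y) = 0) ∧ a ≤ ms φ ψ α y β

lemma eta_cont (a : ℝ) : Continuous (eta a) := by
  unfold eta
  fun_prop

lemma c0_pos {a : ℝ} (ha : 0 < a) : 0 < c0 a := by
  unfold c0
  apply intervalIntegral.intervalIntegral_pos_of_pos_on
  · exact (eta_cont a).intervalIntegrable _ _
  · intro x hx
    unfold eta
    exact lt_max_of_lt_right (by linarith [hx.2])
  · exact ha

lemma integral_eta {a M : ℝ} (_ha : 0 < a) (hM : a ≤ M) : ∫ u in (0 : ℝ)..M, eta a u = c0 a := by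
  rw [← intervalIntegral.integral_add_adjacent_intervals
    ((eta_cont a).intervalIntegrable 0 a) ((eta_cont a).intervalIntegrable a M)]
  have : ∫ u in a..M, eta a u = 0 := by
    rw [intervalIntegral.integral_congr (g := fun _ => (0 : ℝ))]
    · simp
    · intro u hu
      rw [uIcc_of_le hM] at hu
      exact max_eq_left (by linarith [hu.1])
  rw [this, add_zero, c0]

variable {φ : ℝ → Y → Y} {ψ : C(Y, ℝ)} {a : ℝ}

lemma psi_cont (hφ : ∀ y, Continuous fun t => φ t y) (y : Y) : Continuous fun t => ψ (φ t y) :=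
  ψ.continuous.comp (hφ y)

lemma ms_deriv (hφ : ∀ y, Continuous fun t => φ t y) (α : ℝ) (y : Y) (t : ℝ) :
    HasDerivAt (ms φ ψ α y) (ψ (φ t y)) t :=
  ((psi_cont hφ y).integral_hasStrictDerivAt α t).hasDerivAt

lemma ms_cont (hφ : ∀ y, Continuous fun t => φ t y) (α : ℝ) (y : Y) : Continuous (ms φ ψ α y) :=
  continuous_iff_continuousAt.2 fun t => (ms_deriv hφ α y t).continuousAt

lemma ms_split (hφ : ∀ y, Continuous fun t => φ t y) (α β t : ℝ) (y : Y) :
    ms φ ψ α y t = ms φ ψ α y β + ms φ ψ β y t :=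
  (intervalIntegral.integral_add_adjacent_intervals
    ((psi_cont hφ y).intervalIntegrable _ _) ((psi_cont hφ y).intervalIntegrable _ _)).symm

lemma ms_nonneg (hψ : ∀ y, 0 ≤ ψ y) {α t : ℝ} (h : α ≤ t) (y : Y) : 0 ≤ ms φ ψ α y t :=
  intervalIntegral.integral_nonneg h fun _ _ => hψ _

lemma ms_mono (hφ : ∀ y, Continuous fun t => φ t y) (hψ : ∀ y, 0 ≤ ψ y) {α β t : ℝ} (h : β ≤ t)
    (y : Y) : ms φ ψ α y β ≤ ms φ ψ α y t := by
  rw [ms_split hφ α β t]
  linarith [ms_nonneg (φ := φ) hψ h y]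

lemma ms_zero {α β : ℝ} {y : Y} (hαβ : α ≤ β) (hz : ∀ t ≤ β, ψ (φ t y) = 0) :
    ms φ ψ α y β = 0 := by
  unfold ms
  rw [intervalIntegral.integral_congr (g := fun _ => (0 : ℝ))]
  · simp
  · intro u hu
    rw [uIcc_of_le hαβ] at hu
    exact hz u hu.2

lemma wt_cont (hφ : ∀ y, Continuous fun t => φ t y) (α : ℝ) (y : Y) :
    Continuous fun t => ψ (φ t y) * eta a (ms φ ψ α y t) :=
  (psi_cont hφ y).mul ((eta_cont a).comp (ms_cont hφ α y))

lemma Good.norm (hφ : ∀ y, Continuous fun t => φ t y) (ha : 0 < a) {α β : ℝ} {y : Y}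
    (hG : Good φ ψ a α β y) : ∫ t in α..β, ψ (φ t y) * eta a (ms φ ψ α y t) = c0 a := by
  have h1 := intervalIntegral.integral_comp_mul_deriv (a := α) (b := β) (f := ms φ ψ α y)
    (f' := fun t => ψ (φ t y)) (g := eta a) (fun t _ => ms_deriv hφ α y t)
    (psi_cont hφ y).continuousOn (eta_cont a)
  have h2 : ms φ ψ α y α = 0 := by simp [ms]
  rw [h2, integral_eta ha hG.2.2] at h1
  rw [← h1]
  refine intervalIntegral.integral_congr fun t _ => ?_
  simp only [Function.comp]
  ring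

lemma Good.left (hφ : ∀ y, Continuous fun t => φ t y) {α β α' : ℝ} {y : Y}
    (hG : Good φ ψ a α β y) (h : α' ≤ α) :
    Good φ ψ a α' β y ∧ TT φ ψ a α' β y = TT φ ψ a α β y := by
  obtain ⟨h1, h2, h3⟩ := hG
  have hz := ms_zero h h2
  have hms : ∀ t, ms φ ψ α' y t = ms φ ψ α y t := by
    intro t
    rw [ms_split hφ α' α t, hz, zero_add]
  refine ⟨⟨h.trans h1, fun t ht => h2 t (ht.trans h), by rw [hms]; exact h3⟩, ?_⟩
  unfold TT
  congr 1
  simp only [hms]
  have hc : Continuous fun t => t * (ψ (φ t y) * eta a (ms φ ψ α y t)) :=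
    continuous_id.mul (wt_cont hφ α y)
  rw [← intervalIntegral.integral_add_adjacent_intervals (hc.intervalIntegrable α' α)
    (hc.intervalIntegrable α β)]
  have : ∫ t in α'..α, t * (ψ (φ t y) * eta a (ms φ ψ α y t)) = 0 := by
    rw [intervalIntegral.integral_congr (g := fun _ => (0 : ℝ))]
    · simp
    · intro u hu
      rw [uIcc_of_le h] at hu
      simp only
      rw [h2 u hu.2]
      ring
  rw [this, zero_add]

lemma Good.right (hφ : ∀ y, Continuous fun t => φ t y) (hψ : ∀ y, 0 ≤ ψ y) {α β β' : ℝ} {y : Y}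
    (hG : Good φ ψ a α β y) (h : β ≤ β') :
    Good φ ψ a α β' y ∧ TT φ ψ a α β' y = TT φ ψ a α β y := by
  obtain ⟨h1, h2, h3⟩ := hG
  have hms : ∀ t, β ≤ t → a ≤ ms φ ψ α y t := fun t ht => h3.trans (ms_mono hφ hψ ht y)
  refine ⟨⟨h1.trans h, h2, hms _ h⟩, ?_⟩
  unfold TT
  congr 1
  have hc : Continuous fun t => t * (ψ (φ t y) * eta a (ms φ ψ α y t)) :=
    continuous_id.mul (wt_cont hφ α y)
  rw [← intervalIntegral.integral_add_adjacent_intervals (hc.intervalIntegrable α β)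
    (hc.intervalIntegrable β β')]
  have : ∫ t in β..β', t * (ψ (φ t y) * eta a (ms φ ψ α y t)) = 0 := by
    rw [intervalIntegral.integral_congr (g := fun _ => (0 : ℝ))]
    · simp
    · intro u hu
      rw [uIcc_of_le h] at hu
      have : eta a (ms φ ψ α y u) = 0 := max_eq_left (by linarith [hms u hu.1])
      simp only
      rw [this]
      ring
  rw [this, add_zero]

lemma Good.indep (hφ : ∀ y, Continuous fun t => φ t y) (hψ : ∀ y, 0 ≤ ψ y) {α β α' β' : ℝ} {y : Y}
    (hG : Good φ ψ a α β y) (hG' : Good φ ψ a α' β' y) :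
    TT φ ψ a α' β' y = TT φ ψ a α β y := by
  obtain ⟨g1, e1⟩ := hG.left hφ (min_le_left α α')
  obtain ⟨g2, e2⟩ := g1.right hφ hψ (le_max_left β β')
  obtain ⟨g3, e3⟩ := hG'.left hφ (min_le_right α α')
  obtain ⟨g4, e4⟩ := g3.right hφ hψ (le_max_right β β')
  rw [← e1, ← e2, ← e3, ← e4]

lemma Good.shift (hφ : ∀ y, Continuous fun t => φ t y)
    (hadd : ∀ s t y, φ (s + t) y = φ s (φ t y)) (ha : 0 < a) {α β : ℝ} {y : Y}
    (hG : Good φ ψ a α β y) (r : ℝ) :
    Good φ ψ a (α - r) (β - r) (φ r y) ∧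
      TT φ ψ a (α - r) (β - r) (φ r y) = TT φ ψ a α β y - r := by
  have hms : ∀ t, ms φ ψ (α - r) (φ r y) t = ms φ ψ α y (t + r) := by
    intro t
    unfold ms
    simp only [← hadd]
    rw [intervalIntegral.integral_comp_add_right (fun s => ψ (φ s y)), sub_add_cancel]
  obtain ⟨h1, h2, h3⟩ := hG
  refine ⟨⟨by linarith, fun t ht => ?_, ?_⟩, ?_⟩
  · rw [← hadd]
    exact h2 _ (by linarith)
  · rw [hms, sub_add_cancel]
    exact h3
  · have hn := Good.norm hφ ha ⟨h1, h2, h3⟩
    have hc0 := c0_pos ha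
    unfold TT
    simp only [hms, ← hadd]
    have e1 : (∫ t in (α - r)..(β - r), t * (ψ (φ (t + r) y) * eta a (ms φ ψ α y (t + r)))) =
        ∫ t in (α - r)..(β - r), (fun t => (t - r) * (ψ (φ t y) * eta a (ms φ ψ α y t))) (t + r) := by
      refine intervalIntegral.integral_congr fun t _ => ?_
      simp only [add_sub_cancel_right]
    rw [e1, intervalIntegral.integral_comp_add_right
      (fun t => (t - r) * (ψ (φ t y) * eta a (ms φ ψ α y t))), sub_add_cancel, sub_add_cancel]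
    have e2 : ∀ t : ℝ, (t - r) * (ψ (φ t y) * eta a (ms φ ψ α y t)) =
        t * (ψ (φ t y) * eta a (ms φ ψ α y t)) - r * (ψ (φ t y) * eta a (ms φ ψ α y t)) := by
      intro t; ring
    simp_rw [e2]
    rw [intervalIntegral.integral_sub, intervalIntegral.integral_const_mul, hn]
    · field_simp
    · exact (continuous_id.mul (wt_cont hφ α y)).intervalIntegrable _ _
    · exact (continuous_const.mul (wt_cont hφ α y)).intervalIntegrable _ _

end Pool.Agent.Q143.FQ
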