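import Pool.Agent.Q143.FQ.GHopf2
import Pool.Agent.H289R3.FQ.Main

set_option autoImplicit false
open Set Topology Filter Complex
open scoped ComplexConjugate
open Pool.Agent.H289R3.FQ

/-!
# The map of degree one from the torus to the sphere, and the angle of a lift
-/

namespace Pool.Agent.Q143.FQ

/-- `exp (2 π i s)` -/
noncomputable def ex (s : ℝ) : ℂ := (Circle.exp (2 * Real.pi * s) : ℂ)

lemma ex_cont : Continuous ex := by
  unfold ex
  fun_prop

lemma ex_add (s t : ℝ) : ex (s + t) = ex s * ex t := by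
  unfold ex
  rw [mul_add, Circle.exp_add, Circle.coe_mul]

lemma ex_int (n : ℤ) : ex n = 1 := by
  unfold ex
  rw [mul_comm, Circle.exp_int_mul_two_pi n, Circle.coe_one]

lemma ex_zero : ex 0 = 1 := by simpa using ex_int 0

lemma ex_norm (s : ℝ) : ‖ex s‖ = 1 := Circle.norm_coe _

lemma ex_normSq (s : ℝ) : normSq (ex s) = 1 := by rw [normSq_eq_norm_sq, ex_norm, one_pow]

lemma ex_ne (s : ℝ) : ex s ≠ 0 := Circle.coe_ne_zero _

lemma ex_neg_mul (s : ℝ) : ex (-s) * ex s = 1 := by rw [← ex_add, neg_add_cancel, ex_zero]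

lemma conj_ex (s : ℝ) : conj (ex s) = ex (-s) := by
  have h1 : conj (ex s) * ex s = 1 := by
    rw [mul_comm, mul_conj, ex_normSq, ofReal_one]
  have h2 := ex_neg_mul s
  exact mul_right_cancel₀ (ex_ne s) (h1.trans h2.symm)

/-- auxiliary map on the strip -/
noncomputable def GG (s r : ℝ) : ℂ × ℂ :=
  (ex (s * r) * ((1 - r : ℝ) + (r : ℝ) * ex (-s)), ex (s * r) * (r * (1 - r) : ℝ))

lemma GG_cont : Continuous fun p : ℝ × ℝ => GG p.1 p.2 := by
  unfold GG
  have := ex_cont
  fun_prop

/-- the section over the torus of the pulled back Hopf bundle -/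
noncomputable def HH (s t : ℝ) : ℂ × ℂ :=
  (ex (-(s * t)) * (GG s (Int.fract t)).1, ex (-(s * t)) * (GG s (Int.fract t)).2)

lemma HH_cont : Continuous fun p : ℝ × ℝ => HH p.1 p.2 := by
  have h1 : Continuous fun st : ℝ × ℝ => GG st.1 (Int.fract st.2) := by
    apply ContinuousOn.comp_fract' (f := GG)
    · exact GG_cont.continuousOn
    · intro s
      simp only [GG, mul_zero, ex_zero, sub_zero, sub_self, mul_one]
      rw [Prod.mk.injEq]
      constructor
      · simp only [ofReal_zero, ofReal_one]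
        have := ex_neg_mul s
        linear_combination -this
      · simp
  have h2 : Continuous fun p : ℝ × ℝ => ex (-(p.1 * p.2)) := ex_cont.comp (by fun_prop)
  unfold HH
  exact (h2.mul (continuous_fst.comp h1)).prodMk (h2.mul (continuous_snd.comp h1))

lemma HH_ne (s t : ℝ) : HH s t ≠ 0 := by
  intro h
  have h1 := congrArg Prod.fst h
  have h2 := congrArg Prod.snd h
  simp only [HH, GG, Prod.fst_zero, Prod.snd_zero, mul_eq_zero, ex_ne, false_or, ofReal_eq_zero] at h1 h2
  have h3 := Int.fract_lt_one t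
  rcases h2 with h2 | h2
  · rw [h2] at h1
    simp at h1
  · linarith

lemma HH_fst (s t : ℝ) : HH (s + 1) t = HH s t := by
  have e1 : ex (-((s + 1) * t)) * ex ((s + 1) * Int.fract t) = ex (-(s * t)) * ex (s * Int.fract t) := by
    rw [← ex_add, ← ex_add]
    have : -((s + 1) * t) + (s + 1) * Int.fract t = -(s * t) + s * Int.fract t + ((-⌊t⌋ : ℤ) : ℝ) := by
      have := Int.fract_add_floor t
      push_cast
      linear_combination this
    rw [this, ex_add, ex_int, mul_one]
  have e2 : ex (-(s + 1)) = ex (-s) := by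
    have : -(s + 1) = -s + ((-1 : ℤ) : ℝ) := by push_cast; ring
    rw [this, ex_add, ex_int, mul_one]
  simp only [HH, GG, e2]
  rw [Prod.mk.injEq]
  constructor
  · linear_combination (((1 - Int.fract t : ℝ) : ℂ) + (Int.fract t : ℝ) * ex (-s)) * e1
  · linear_combination (((Int.fract t * (1 - Int.fract t) : ℝ) : ℂ)) * e1

lemma HH_snd (s t : ℝ) : HH s (t + 1) = (ex (-s) * (HH s t).1, ex (-s) * (HH s t).2) := by
  have e1 : ex (-(s * (t + 1))) = ex (-s) * ex (-(s * t)) := by
    rw [← ex_add]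
    congr 1
    ring
  simp only [HH, Int.fract_add_one, e1]
  rw [Prod.mk.injEq]
  constructor <;> ring

/-- the map from the torus to `ℝ³ ∖ 0` -/
noncomputable def hh (s t : ℝ) : ℝ × ℂ := hopf (HH s t)

lemma hh_cont : Continuous fun p : ℝ × ℝ => hh p.1 p.2 := hopf_cont.comp HH_cont

lemma hh_fst (s t : ℝ) : hh (s + 1) t = hh s t := by
  unfold hh
  rw [HH_fst]

lemma hh_snd (s t : ℝ) : hh s (t + 1) = hh s t := by
  unfold hh
  rw [HH_snd, hopf_smul (ex_normSq _)]

lemma hh_ne (s t : ℝ) : hh s t ≠ 0 := by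
  intro h
  have h1 := nv_hopf (HH s t)
  rw [show hopf (HH s t) = 0 from h] at h1
  have h2 : nq 0 = 0 := by simp [nq]
  rw [h2] at h1
  have h3 := nv_pos (HH_ne s t)
  nlinarith

lemma ang_mul (s : ℝ) {z : ℂ} (hz : z ≠ 0) : ang (ex s * z) = (s : T1) + ang z := by
  have key : ∀ w : ℂ, w ≠ 0 → ((Circle.exp (Complex.arg w) : Circle) : ℂ) = w / ‖w‖ := by
    intro w hw
    have hw' : (‖w‖ : ℂ) ≠ 0 := by simpa using hw
    rw [Circle.coe_exp, eq_div_iff hw', mul_comm]
    exact Complex.norm_mul_exp_arg_mul_I w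
  have h1 : AddCircle.toCircle (ang z) = Circle.exp (Complex.arg z) := by
    rw [← AddCircle.homeomorphCircle_apply (T := 1) one_ne_zero]
    unfold ang
    rw [Homeomorph.apply_symm_apply]
  unfold ang at h1 ⊢
  rw [Homeomorph.symm_apply_eq, AddCircle.homeomorphCircle_apply, AddCircle.toCircle_add, h1,
    AddCircle.toCircle_apply_mk]
  apply Circle.coe_injective
  rw [Circle.coe_mul, key _ (mul_ne_zero (ex_ne s) hz), key z hz, norm_mul, ex_norm, one_mul,
    mul_div_assoc]
  congr 1
  unfold ex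
  norm_num

lemma herm_smul (c : ℂ) (u v : ℂ × ℂ) : herm (c * u.1, c * u.2) v = conj c * herm u v := by
  simp only [herm, map_mul]
  ring

/-- the angle between the standard lift and the vector `v` -/
noncomputable def dd (s t : ℝ) (v : ℂ × ℂ) : T1 := ang (herm (HH s t) v)

lemma dd_ne {s t : ℝ} {v : ℂ × ℂ} (h : hopf v = hh s t) : herm (HH s t) v ≠ 0 := by
  apply herm_ne
  · exact h.symm
  · exact hh_ne s t

lemma dd_fst (s t : ℝ) (v : ℂ × ℂ) : dd (s + 1) t v = dd s t v := by
  unfold dd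
  rw [HH_fst]

lemma dd_snd {s t : ℝ} {v : ℂ × ℂ} (h : hopf v = hh s t) :
    dd s (t + 1) v = dd s t v + (s : T1) := by
  unfold dd
  rw [HH_snd, herm_smul, conj_ex, neg_neg, ang_mul _ (dd_ne h), add_comm]

attribute [local irreducible] herm HH hopf ang hh

lemma dd_contOn {S : Type*} [TopologicalSpace S] {K : Set S} {a b : S → ℝ} {v : S → ℂ × ℂ}
    (ha : ContinuousOn a K) (hb : ContinuousOn b K) (hv : ContinuousOn v K)
    (h : ∀ x ∈ K, hopf (v x) = hh (a x) (b x)) :
    ContinuousOn (fun x => dd (a x) (b x) (v x)) K := by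
  have h1 : ContinuousOn (fun x => HH (a x) (b x)) K :=
    Continuous.comp_continuousOn (g := fun p : ℝ × ℝ => HH p.1 p.2) HH_cont (ha.prodMk hb)
  have h2 : ContinuousOn (fun x => herm (HH (a x) (b x)) (v x)) K :=
    Continuous.comp_continuousOn (g := fun p : (ℂ × ℂ) × (ℂ × ℂ) => herm p.1 p.2) herm_cont
      (h1.prodMk hv)
  intro x hx
  exact ContinuousAt.comp_continuousWithinAt (g := ang) (f := fun x => herm (HH (a x) (b x)) (v x))
    (ang_cont (dd_ne (h x hx))) (h2 x hx)

end Pool.Agent.Q143.FQ
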